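import Pool.Agent.helper94.SCT.Spec

/-!
# Project SCT (MP_ad8ced_nt), row FOU: the Fourier integral
-/

set_option autoImplicit false

namespace Pool.Agent.SCT

open Finset ArithmeticFunction MeasureTheory
open Pool.Agent.CH (nit)

/-- `e^(ity)` -/
private noncomputable def FOU_e (t y : ℝ) : ℂ := Complex.exp (((t * y : ℝ) : ℂ) * Complex.I)

private theorem FOU_e_norm (t y : ℝ) : ‖FOU_e t y‖ = 1 := by
  unfold FOU_e
  rw [Complex.norm_exp_ofReal_mul_I]

private theorem FOU_e_add (t y z : ℝ) : FOU_e t (y + z) = FOU_e t y * FOU_e t z := by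
  unfold FOU_e
  rw [← Complex.exp_add]
  congr 1
  push_cast
  ring

private theorem FOU_e_nu (t : ℝ) (n : ℕ) : FOU_e t (-Real.log n) = nu t n := by
  unfold FOU_e nu nit
  congr 2
  push_cast
  ring

private theorem FOU_cont (y : ℝ) : Continuous fun t : ℝ => FOU_e t y := by
  unfold FOU_e
  fun_prop

private theorem FOU_cont2 : Continuous fun q : ℝ × ℝ => FOU_e q.1 q.2 := by
  unfold FOU_e
  fun_prop

/-- the inversion formula for `w(y/η)` -/
private theorem FOU_w (hINV : INV_stmt) (w : ℝ → ℝ) (hw : Sm w) (η : ℝ) (hη : 0 < η) :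
    Integrable (fun t : ℝ => Mt w (((η * t : ℝ) : ℂ) * Complex.I)) ∧
    ∀ y : ℝ, (w (y / η) : ℂ) = ((η / (2 * Real.pi) : ℝ) : ℂ) *
      ∫ t : ℝ, Mt w (((η * t : ℝ) : ℂ) * Complex.I) * FOU_e t (-y) := by
  obtain ⟨h1, h2⟩ := hINV w hw 0 (by norm_num)
  simp only [Complex.ofReal_zero, zero_add] at h1 h2
  refine ⟨?_, fun y => ?_⟩
  · have h3 := h1.comp_mul_left' (g := fun τ : ℝ => Mt w ((τ : ℂ) * Complex.I)) hη.ne'
    exact h3
  · rw [h2 (y / η)]
    have h3 := Measure.integral_comp_mul_left (fun τ : ℝ => Mt w ((τ : ℂ) * Complex.I) *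
      Complex.exp (-((τ : ℂ) * Complex.I) * ((y / η : ℝ) : ℂ))) η
    have h4 : ∀ t : ℝ, Mt w (((η * t : ℝ) : ℂ) * Complex.I) *
        Complex.exp (-(((η * t : ℝ) : ℂ) * Complex.I) * ((y / η : ℝ) : ℂ)) =
        Mt w (((η * t : ℝ) : ℂ) * Complex.I) * FOU_e t (-y) := by
      intro t
      unfold FOU_e
      congr 2
      have hη' : (η : ℂ) ≠ 0 := by exact_mod_cast hη.ne'
      push_cast
      field_simp
    simp only [h4] at h3
    rw [h3, abs_of_pos (inv_pos.2 hη)]
    have hη' : (η : ℂ) ≠ 0 := by exact_mod_cast hη.ne'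
    have hpi : (Real.pi : ℂ) ≠ 0 := by exact_mod_cast Real.pi_pos.ne'
    rw [Complex.real_smul]
    have h5 : ∀ J : ℂ, 1 / (2 * (Real.pi : ℂ)) * J =
        ((η / (2 * Real.pi) : ℝ) : ℂ) * (((η⁻¹ : ℝ) : ℂ) * J) := by
      intro J
      push_cast
      field_simp
    exact h5 _

theorem FOU (hINV : INV_stmt) (hDEC : DEC_stmt) (hTRV : TRV_stmt) : FOU_stmt := by
  intro φ g w hφ hg hw x η hx hη
  obtain ⟨R, hR0, hR, -⟩ := hφ.bound
  obtain ⟨R', hR0', hR', -⟩ := hg.bound
  have hxp : (0 : ℝ) < x := by exact_mod_cast (by omega : 0 < x)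
  have hXp : (0 : ℝ) < (x : ℝ) ^ 2 := by positivity
  obtain ⟨K, hK⟩ := exists_nat_ge (max ((x : ℝ) * Real.exp R) ((x : ℝ) ^ 2 * Real.exp R'))
  have hK1 : (x : ℝ) * Real.exp R ≤ K := (le_max_left _ _).trans hK
  have hK2 : (x : ℝ) ^ 2 * Real.exp R' ≤ K := (le_max_right _ _).trans hK
  -- vanishing outside
  have hvan : ∀ (ψ : ℝ → ℝ) (ρ N : ℝ), 0 < N → (∀ u, ψ u ≠ 0 → |u| ≤ ρ) → N * Real.exp ρ ≤ K → ∀ n : ℕ, n ∉ Icc 1 K →
      vonMangoldt n * ψ (Real.log ((n : ℝ) / N)) = 0 := by
    intro ψ ρ N hN hψ hNK n hn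
    rcases Nat.eq_zero_or_pos n with h0 | h0
    · subst h0
      simp
    · have h1 : K < n := by
        by_contra hc
        exact hn (mem_Icc.2 ⟨h0, by omega⟩)
      have h2 : ψ (Real.log ((n : ℝ) / N)) = 0 := by
        by_contra hc
        have h3 := hψ _ hc
        have h4 : (K : ℝ) < n := by exact_mod_cast h1
        have h5 : Real.exp ρ < (n : ℝ) / N := by
          rw [lt_div_iff₀ hN]
          linarith [mul_comm N (Real.exp ρ)]
        have h6 : ρ < Real.log ((n : ℝ) / N) := by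
          rw [Real.lt_log_iff_exp_lt ((Real.exp_pos ρ).trans h5)]
          exact h5
        linarith [le_abs_self (Real.log ((n : ℝ) / N))]
      rw [h2, mul_zero]
  set A : ℕ → ℝ := fun m => vonMangoldt m * φ (Real.log ((m : ℝ) / x)) with hA
  set B : ℕ → ℝ := fun n => vonMangoldt n * g (Real.log ((n : ℝ) / (x : ℝ) ^ 2)) with hB
  set l : ℕ → ℝ := fun m => Real.log (8 * (m : ℝ) ^ 2) with hl
  have hAv : ∀ m, m ∉ Icc 1 K → A m = 0 := hvan φ R x hxp hR hK1
  have hBv : ∀ n, n ∉ Icc 1 K → B n = 0 := hvan g R' _ hXp hR' hK2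
  obtain ⟨hWi, hWf⟩ := FOU_w hINV w hw η hη
  set W : ℝ → ℂ := fun t => Mt w (((η * t : ℝ) : ℂ) * Complex.I) with hW
  set q : ℂ := ((η / (2 * Real.pi) : ℝ) : ℂ) with hq
  set D : ℝ → ℂ := fun t => ∑ m ∈ Icc 1 K, (A m : ℂ) * FOU_e t (l m) with hD
  set F : ℝ → ℂ := fun t => ∑ n ∈ Icc 1 K, (B n : ℂ) * nu t n with hF
  have hFe : ∀ t, F t = DL g ((x : ℝ) ^ 2) t := by
    intro t
    rw [DL_eq hR' hXp K hK2 t]
    refine sum_congr rfl fun n _ => ?_
    simp only [hB]
    push_cast
    ring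
  have hDn : ∀ t, ‖D t‖ = ‖DL φ x (2 * t)‖ := by
    intro t
    have h1 : ‖DL φ x (2 * t)‖ = ‖DL φ x (-(2 * t))‖ := by
      rw [(hTRV φ hφ).1 x (2 * t) hxp, RCLike.norm_conj]
    rw [h1, DL_eq hR hxp K hK1 (-(2 * t))]
    have h2 : D t = FOU_e t (Real.log 8) * ∑ n ∈ Icc 1 K, (vonMangoldt n : ℂ) * (φ (Real.log ((n : ℝ) / x)) : ℂ) * nu (-(2 * t)) n := by
      simp only [hD]
      rw [mul_sum]
      refine sum_congr rfl fun m hm => ?_
      have hm1 : (m : ℝ) ≠ 0 := by
        have := (mem_Icc.1 hm).1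
        exact_mod_cast (by omega : m ≠ 0)
      have h3 : l m = Real.log 8 + 2 * Real.log m := by
        simp only [hl]
        rw [Real.log_mul (by norm_num) (by positivity), Real.log_pow]
        push_cast
        ring
      rw [h3, FOU_e_add]
      have h4 : FOU_e t (2 * Real.log m) = nu (-(2 * t)) m := by
        unfold FOU_e nu nit
        congr 2
        push_cast
        ring
      rw [h4]
      simp only [hA]
      push_cast
      ring
    rw [h2, norm_mul, FOU_e_norm, one_mul]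
  have hDc : Continuous D := by
    simp only [hD]
    exact continuous_finsetSum _ fun m _ => continuous_const.mul (FOU_cont _)
  have hFc : Continuous F := by
    simp only [hF]
    exact continuous_finsetSum _ fun n _ => continuous_const.mul (nu_cont n)
  -- the sum
  have hS : (Spn φ g w x η : ℂ) = q * ∫ t : ℝ, W t * (D t * F t) := by
    have h1 : Spn φ g w x η = ∑ m ∈ Icc 1 K, ∑ n ∈ Icc 1 K, A m * B n * w ((Real.log n - l m) / η) := by
      unfold Spn
      rw [tsum_eq_sum (s := Icc 1 K)]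
      · refine sum_congr rfl fun m _ => ?_
        rw [tsum_eq_sum (s := Icc 1 K)]
        · refine sum_congr rfl fun n _ => ?_
          simp only [hA, hB, hl]
          ring
        · intro n hn
          have := hBv n hn
          simp only [hB] at this
          calc vonMangoldt m * vonMangoldt n * φ (Real.log ((m : ℝ) / x)) *
                g (Real.log ((n : ℝ) / (x : ℝ) ^ 2)) * w ((Real.log n - Real.log (8 * (m : ℝ) ^ 2)) / η)
              = (vonMangoldt n * g (Real.log ((n : ℝ) / (x : ℝ) ^ 2))) * (vonMangoldt m * φ (Real.log ((m : ℝ) / x)) *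
                w ((Real.log n - Real.log (8 * (m : ℝ) ^ 2)) / η)) := by ring
            _ = 0 := by rw [this, zero_mul]
      · intro m hm
        have := hAv m hm
        simp only [hA] at this
        have h2 : ∀ n : ℕ, vonMangoldt m * vonMangoldt n * φ (Real.log ((m : ℝ) / x)) *
                g (Real.log ((n : ℝ) / (x : ℝ) ^ 2)) * w ((Real.log n - Real.log (8 * (m : ℝ) ^ 2)) / η) = 0 := by
          intro n
          calc vonMangoldt m * vonMangoldt n * φ (Real.log ((m : ℝ) / x)) *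
                g (Real.log ((n : ℝ) / (x : ℝ) ^ 2)) * w ((Real.log n - Real.log (8 * (m : ℝ) ^ 2)) / η)
              = (vonMangoldt m * φ (Real.log ((m : ℝ) / x))) * (vonMangoldt n * g (Real.log ((n : ℝ) / (x : ℝ) ^ 2)) *
                w ((Real.log n - Real.log (8 * (m : ℝ) ^ 2)) / η)) := by ring
            _ = 0 := by rw [this, zero_mul]
        simp only [h2, tsum_zero]
    rw [h1]
    push_cast
    have h2 : ∀ m n : ℕ, ((A m : ℂ) * (B n : ℂ) * (w ((Real.log n - l m) / η) : ℂ)) =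
        q * ∫ t : ℝ, W t * (((A m : ℂ) * FOU_e t (l m)) * ((B n : ℂ) * nu t n)) := by
      intro m n
      rw [hWf (Real.log n - l m), ← integral_const_mul, ← integral_const_mul, ← integral_const_mul]
      refine integral_congr_ae (Filter.Eventually.of_forall fun t => ?_)
      have h3 : FOU_e t (-(Real.log n - l m)) = FOU_e t (l m) * nu t n := by
        rw [← FOU_e_nu, ← FOU_e_add]
        congr 1
        ring
      simp only [h3]
      ring
    have hint : ∀ m n : ℕ, Integrable fun t : ℝ => W t * (((A m : ℂ) * FOU_e t (l m)) * ((B n : ℂ) * nu t n)) := by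
      intro m n
      have hc : Continuous fun t : ℝ => ((A m : ℂ) * FOU_e t (l m)) * ((B n : ℂ) * nu t n) :=
        (continuous_const.mul (FOU_cont _)).mul (continuous_const.mul (nu_cont n))
      refine hWi.mul_bdd (c := |A m| * |B n|) hc.aestronglyMeasurable (Filter.Eventually.of_forall fun t => ?_)
      rw [norm_mul, norm_mul, norm_mul, FOU_e_norm, nu_norm, Complex.norm_real, Complex.norm_real, mul_one, mul_one,
        Real.norm_eq_abs, Real.norm_eq_abs]
    calc ∑ m ∈ Icc 1 K, ∑ n ∈ Icc 1 K, (A m : ℂ) * (B n : ℂ) * (w ((Real.log n - l m) / η) : ℂ)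
        = ∑ m ∈ Icc 1 K, ∑ n ∈ Icc 1 K, q * ∫ t : ℝ, W t * (((A m : ℂ) * FOU_e t (l m)) * ((B n : ℂ) * nu t n)) :=
          sum_congr rfl fun m _ => sum_congr rfl fun n _ => h2 m n
      _ = q * ∑ m ∈ Icc 1 K, ∑ n ∈ Icc 1 K, ∫ t : ℝ, W t * (((A m : ℂ) * FOU_e t (l m)) * ((B n : ℂ) * nu t n)) := by
          rw [mul_sum]
          refine sum_congr rfl fun m _ => ?_
          rw [mul_sum]
      _ = q * ∫ t : ℝ, ∑ m ∈ Icc 1 K, ∑ n ∈ Icc 1 K, W t * (((A m : ℂ) * FOU_e t (l m)) * ((B n : ℂ) * nu t n)) := by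
          congr 1
          rw [integral_finsetSum _ fun m _ => integrable_finsetSum _ fun n _ => hint m n]
          refine sum_congr rfl fun m _ => ?_
          rw [integral_finsetSum _ fun n _ => hint m n]
      _ = q * ∫ t : ℝ, W t * (D t * F t) := by
          congr 1
          refine integral_congr_ae (Filter.Eventually.of_forall fun t => ?_)
          simp only [hD, hF]
          rw [sum_mul_sum, mul_sum]
          refine sum_congr rfl fun m _ => ?_
          rw [mul_sum]
  -- the expected value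
  have hgi : Integrable (fun u : ℝ => ((g u * ((x : ℝ) ^ 2 * Real.exp u) : ℝ) : ℂ)) := by
    refine Integrable.ofReal ?_
    refine Continuous.integrable_of_hasCompactSupport
      (hg.cont.mul (continuous_const.mul Real.continuous_exp)) ?_
    exact hg.2.mul_right
  set L : ℝ := Real.log ((x : ℝ) ^ 2) with hL
  have hXL : (x : ℝ) ^ 2 = Real.exp L := (Real.exp_log hXp).symm
  set G : ℝ → ℂ := fun u => ((g u * ((x : ℝ) ^ 2 * Real.exp u) : ℝ) : ℂ) with hG
  have hM : ∀ t : ℝ, F0 g x t = ∫ u : ℝ, G u * FOU_e t (-(L + u)) := by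
    intro t
    unfold F0 Mt
    rw [← integral_const_mul]
    refine integral_congr_ae (Filter.Eventually.of_forall fun u => ?_)
    have hX0 : ((x : ℂ) ^ 2) ≠ 0 := by
      have : (x : ℂ) ≠ 0 := by exact_mod_cast (by omega : x ≠ 0)
      exact pow_ne_zero 2 this
    have e1 : Complex.log ((x : ℂ) ^ 2) = (L : ℂ) := by
      rw [hL, Complex.ofReal_log hXp.le]
      push_cast
      rfl
    have e2 : ((x : ℂ) ^ 2) ^ (1 - (t : ℂ) * Complex.I) = Complex.exp ((L : ℂ) * (1 - (t : ℂ) * Complex.I)) := by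
      rw [Complex.cpow_def_of_ne_zero hX0, e1]
    have e3 : G u = (g u : ℂ) * (Complex.exp (L : ℂ) * Complex.exp (u : ℂ)) := by
      simp only [hG]
      rw [hXL]
      push_cast
      ring
    simp only
    rw [e2, e3]
    unfold FOU_e
    have e4 : Complex.exp ((L : ℂ) * (1 - (t : ℂ) * Complex.I)) *
        ((g u : ℂ) * Complex.exp ((1 - (t : ℂ) * Complex.I) * u)) =
        (g u : ℂ) * Complex.exp ((L : ℂ) * (1 - (t : ℂ) * Complex.I) + (1 - (t : ℂ) * Complex.I) * u) := by
      rw [Complex.exp_add]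
      ring
    have e5 : (g u : ℂ) * (Complex.exp (L : ℂ) * Complex.exp (u : ℂ)) *
        Complex.exp (((t * -(L + u) : ℝ) : ℂ) * Complex.I) =
        (g u : ℂ) * Complex.exp ((L : ℂ) + u + ((t * -(L + u) : ℝ) : ℂ) * Complex.I) := by
      rw [Complex.exp_add, Complex.exp_add]
      ring
    rw [e4, e5]
    congr 2
    push_cast
    ring
  have hsub : ∀ m : ℕ, ∫ y in Set.Ioi (0 : ℝ), g (Real.log (y / (x : ℝ) ^ 2)) * w ((Real.log y - l m) / η) =
      ∫ u : ℝ, (g u * ((x : ℝ) ^ 2 * Real.exp u)) * w ((L + u - l m) / η) := by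
    intro m
    have himg : (fun u : ℝ => (x : ℝ) ^ 2 * Real.exp u) '' Set.univ = Set.Ioi 0 := by
      ext y
      simp only [Set.image_univ, Set.mem_range, Set.mem_Ioi]
      constructor
      · rintro ⟨u, rfl⟩
        positivity
      · intro hy
        refine ⟨Real.log (y / (x : ℝ) ^ 2), ?_⟩
        rw [Real.exp_log (by positivity)]
        field_simp
    have h1 := integral_image_eq_integral_abs_deriv_smul (s := Set.univ) (f := fun u : ℝ => (x : ℝ) ^ 2 * Real.exp u)
      (f' := fun u : ℝ => (x : ℝ) ^ 2 * Real.exp u) MeasurableSet.univ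
      (fun u _ => ((Real.hasDerivAt_exp u).const_mul _).hasDerivWithinAt)
      (fun u _ v _ huv => by
        have h2 : (x : ℝ) ^ 2 * Real.exp u = (x : ℝ) ^ 2 * Real.exp v := huv
        exact Real.exp_injective (mul_left_cancel₀ hXp.ne' h2))
      (fun y => g (Real.log (y / (x : ℝ) ^ 2)) * w ((Real.log y - l m) / η))
    rw [himg, Measure.restrict_univ] at h1
    rw [h1]
    refine integral_congr_ae (Filter.Eventually.of_forall fun u => ?_)
    simp only [smul_eq_mul]
    rw [abs_of_pos (by positivity)]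
    have h2 : (x : ℝ) ^ 2 * Real.exp u / (x : ℝ) ^ 2 = Real.exp u := by field_simp
    have h3 : Real.log ((x : ℝ) ^ 2 * Real.exp u) = L + u := by
      rw [Real.log_mul hXp.ne' (Real.exp_pos u).ne', Real.log_exp]
    rw [h2, h3, Real.log_exp]
    ring
  have hFM : Continuous (F0 g x) := by
    unfold F0
    have h1 := (hDEC g hg).1.continuous
    have hX0 : ((x : ℂ) ^ 2) ≠ 0 := by
      have : (x : ℂ) ≠ 0 := by exact_mod_cast (by omega : x ≠ 0)
      exact pow_ne_zero 2 this
    refine Continuous.mul ?_ (h1.comp (by fun_prop))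
    exact Continuous.const_cpow (by fun_prop) (Or.inl hX0)
  have hFMb : ∀ t, ‖F0 g x t‖ ≤ ∫ u, ‖G u‖ := by
    intro t
    rw [hM t]
    refine (norm_integral_le_integral_norm _).trans (le_of_eq ?_)
    refine integral_congr_ae (Filter.Eventually.of_forall fun u => ?_)
    simp only [norm_mul, FOU_e_norm, mul_one]
  have hinner : ∀ m : ℕ, ((∫ u : ℝ, (g u * ((x : ℝ) ^ 2 * Real.exp u)) * w ((L + u - l m) / η) : ℝ) : ℂ) =
      q * ∫ t : ℝ, W t * (FOU_e t (l m) * F0 g x t) := by
    intro m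
    rw [← integral_complex_ofReal]
    have h1 : ∀ u : ℝ, (((g u * ((x : ℝ) ^ 2 * Real.exp u)) * w ((L + u - l m) / η) : ℝ) : ℂ) =
        q * ∫ t : ℝ, G u * W t * (FOU_e t (l m) * FOU_e t (-(L + u))) := by
      intro u
      rw [Complex.ofReal_mul, hWf (L + u - l m), ← integral_const_mul, ← integral_const_mul, ← integral_const_mul]
      refine integral_congr_ae (Filter.Eventually.of_forall fun t => ?_)
      have h3 : FOU_e t (-(L + u - l m)) = FOU_e t (l m) * FOU_e t (-(L + u)) := by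
        rw [← FOU_e_add]
        congr 1
        ring
      simp only [h3, hG]
      ring
    simp only [h1]
    rw [integral_const_mul]
    congr 1
    have hpi : Integrable (Function.uncurry fun u t : ℝ => G u * W t * (FOU_e t (l m) * FOU_e t (-(L + u))))
        (volume.prod volume) := by
      have h4 : Integrable (fun z : ℝ × ℝ => G z.1 * W z.2) (volume.prod volume) := hgi.mul_prod hWi
      have hc : Continuous fun z : ℝ × ℝ => FOU_e z.2 (l m) * FOU_e z.2 (-(L + z.1)) := by
        unfold FOU_e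
        fun_prop
      refine h4.mul_bdd (c := 1) hc.aestronglyMeasurable (Filter.Eventually.of_forall fun z => ?_)
      rw [norm_mul, FOU_e_norm, FOU_e_norm, mul_one]
    rw [integral_integral_swap hpi]
    refine integral_congr_ae (Filter.Eventually.of_forall fun t => ?_)
    simp only
    rw [hM t, ← integral_const_mul, ← integral_const_mul]
    refine integral_congr_ae (Filter.Eventually.of_forall fun u => ?_)
    simp only
    ring
  have hS0 : (S0 φ g w x η : ℂ) = q * ∫ t : ℝ, W t * (D t * F0 g x t) := by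
    have h1 : S0 φ g w x η = ∑ m ∈ Icc 1 K, A m * ∫ u : ℝ, (g u * ((x : ℝ) ^ 2 * Real.exp u)) * w ((L + u - l m) / η) := by
      unfold S0
      rw [tsum_eq_sum (s := Icc 1 K)]
      · refine sum_congr rfl fun m _ => ?_
        rw [← hsub m]
      · intro m hm
        have := hAv m hm
        simp only [hA] at this
        rw [this, zero_mul]
    rw [h1]
    push_cast
    have hint : ∀ m : ℕ, Integrable fun t : ℝ => (A m : ℂ) * (W t * (FOU_e t (l m) * F0 g x t)) := by
      intro m
      have hc : Continuous fun t : ℝ => FOU_e t (l m) * F0 g x t := (FOU_cont _).mul hFM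
      refine Integrable.const_mul ?_ _
      refine hWi.mul_bdd (c := ∫ u, ‖G u‖) hc.aestronglyMeasurable (Filter.Eventually.of_forall fun t => ?_)
      rw [norm_mul, FOU_e_norm, one_mul]
      exact hFMb t
    calc ∑ m ∈ Icc 1 K, (A m : ℂ) * ((∫ u : ℝ, (g u * ((x : ℝ) ^ 2 * Real.exp u)) * w ((L + u - l m) / η) : ℝ) : ℂ)
        = ∑ m ∈ Icc 1 K, q * ∫ t : ℝ, (A m : ℂ) * (W t * (FOU_e t (l m) * F0 g x t)) := by
          refine sum_congr rfl fun m _ => ?_
          rw [hinner m, integral_const_mul]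
          ring
      _ = q * ∫ t : ℝ, ∑ m ∈ Icc 1 K, (A m : ℂ) * (W t * (FOU_e t (l m) * F0 g x t)) := by
          rw [← mul_sum, integral_finsetSum _ fun m _ => hint m]
      _ = q * ∫ t : ℝ, W t * (D t * F0 g x t) := by
          congr 1
          refine integral_congr_ae (Filter.Eventually.of_forall fun t => ?_)
          simp only [hD]
          rw [sum_mul, mul_sum]
          refine sum_congr rfl fun m _ => ?_
          ring
  -- conclusion
  have hDb : ∃ C : ℝ, ∀ t, ‖D t‖ ≤ C := by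
    refine ⟨∑ m ∈ Icc 1 K, |A m|, fun t => ?_⟩
    simp only [hD]
    refine (norm_sum_le _ _).trans (le_of_eq (sum_congr rfl fun m _ => ?_))
    rw [norm_mul, FOU_e_norm, Complex.norm_real, mul_one, Real.norm_eq_abs]
  have hFb : ∃ C : ℝ, ∀ t, ‖F t‖ ≤ C := by
    refine ⟨∑ n ∈ Icc 1 K, |B n|, fun t => ?_⟩
    simp only [hF]
    refine (norm_sum_le _ _).trans (le_of_eq (sum_congr rfl fun m _ => ?_))
    rw [norm_mul, nu_norm, Complex.norm_real, mul_one, Real.norm_eq_abs]
  obtain ⟨C₁, hC₁⟩ := hDb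
  obtain ⟨C₂, hC₂⟩ := hFb
  have hi1 : Integrable fun t : ℝ => W t * (D t * F t) := by
    refine hWi.mul_bdd (c := C₁ * C₂) (hDc.mul hFc).aestronglyMeasurable (Filter.Eventually.of_forall fun t => ?_)
    rw [norm_mul]
    exact mul_le_mul (hC₁ t) (hC₂ t) (norm_nonneg _) ((norm_nonneg _).trans (hC₁ t))
  have hi2 : Integrable fun t : ℝ => W t * (D t * F0 g x t) := by
    refine hWi.mul_bdd (c := C₁ * ∫ u, ‖G u‖) (hDc.mul hFM).aestronglyMeasurable (Filter.Eventually.of_forall fun t => ?_)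
    rw [norm_mul]
    exact mul_le_mul (hC₁ t) (hFMb t) (norm_nonneg _) ((norm_nonneg _).trans (hC₁ t))
  have hdiff : ((Spn φ g w x η - S0 φ g w x η : ℝ) : ℂ) =
      q * ∫ t : ℝ, (W t * (D t * F t) - W t * (D t * F0 g x t)) := by
    rw [Complex.ofReal_sub, hS, hS0, integral_sub hi1 hi2, mul_sub]
  have habs : |Spn φ g w x η - S0 φ g w x η| = ‖((Spn φ g w x η - S0 φ g w x η : ℝ) : ℂ)‖ := by
    rw [Complex.norm_real, Real.norm_eq_abs]
  rw [habs, hdiff, norm_mul]
  have hqn : ‖q‖ ≤ η := by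
    rw [hq, Complex.norm_real, Real.norm_eq_abs, abs_of_pos (by positivity)]
    rw [div_le_iff₀ (by positivity)]
    nlinarith [Real.pi_gt_three]
  refine mul_le_mul hqn ?_ (norm_nonneg _) hη.le
  refine (norm_integral_le_integral_norm _).trans (le_of_eq ?_)
  refine integral_congr_ae (Filter.Eventually.of_forall fun t => ?_)
  simp only
  rw [← mul_sub, ← mul_sub, norm_mul, norm_mul, hDn t, hFe t]
  ring

end Pool.Agent.SCT
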