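import Pool.Agent.helper94.SCT.Spec

/-!
# Project SCT (MP_ad8ced_nt), row LVL: level sets
-/

set_option autoImplicit false

namespace Pool.Agent.SCT

open MeasureTheory

/-- exponent inequality -/
private theorem LVL_exp (ε δ₁ γ κ h a b c : ℝ) (hε : 0 < ε) (hδ : 0 < δ₁)
    (hγ1 : γ ≤ δ₁ / 2) (hγ2 : γ ≤ ε * δ₁) (hh0 : 0 < h) (hh : h ≤ γ / 12) (hκ : κ ≤ γ / 24) (ha : 0 ≤ a) (hb : 0 ≤ b)
    (hc : 11 / 12 * δ₁ ≤ c) (hm : c ≤ max a b) :
    κ + (3 - 9 / 4 * ε) * (min a b + h) + (2 - 2 * a + κ) + (1 - b + κ) ≤ 3 - γ / 2 := by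
  have hεh : 0 ≤ ε * h := by positivity
  rcases le_total a b with hab | hab
  · rw [max_eq_right hab] at hm
    rw [min_eq_left hab]
    rcases le_total (11 / 24 * δ₁) a with h1 | h1
    · have h2 : ε * (11 / 24 * δ₁) ≤ ε * a := mul_le_mul_of_nonneg_left h1 hε.le
      nlinarith
    · have h2 : 0 ≤ ε * a := by positivity
      nlinarith
  · rw [max_eq_left hab] at hm
    rw [min_eq_right hab]
    rcases le_total (11 / 24 * δ₁) b with h1 | h1
    · have h2 : ε * (11 / 24 * δ₁) ≤ ε * b := mul_le_mul_of_nonneg_left h1 hε.le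
      nlinarith
    · have h2 : 0 ≤ ε * b := by positivity
      nlinarith

/-- the level of a point -/
private theorem LVL_level (x κ h e : ℝ) (J j₁ : ℕ) (hj : j₁ ≤ J) (S : ℕ → Set ℝ) (f : ℝ → ℝ) (t s : ℝ)
    (hf0 : f t ≤ x ^ (e + κ)) (hf : ∀ j ≤ J, t ∉ S j → f t ≤ x ^ (e - s * (j * h) + κ)) :
    ∃ j ≤ J + 1, (j ≤ J → t ∈ S j) ∧ f t ≤ x ^ (e - s * (((j - 1 : ℕ) : ℝ) * h) + κ) ∧
      (t ∉ S j₁ → j₁ ≤ j - 1) := by
  classical
  by_cases hall : ∀ j ≤ J, t ∈ S j
  · refine ⟨0, by omega, fun _ => hall 0 (by omega), ?_, fun hn => absurd (hall j₁ hj) hn⟩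
    simpa using hf0
  · push Not at hall
    obtain ⟨i₀, hi₀, hi₁⟩ := hall
    set i := Nat.findGreatest (fun i => t ∉ S i) J with hi
    have h1 : t ∉ S i := Nat.findGreatest_spec (P := fun i => t ∉ S i) hi₀ hi₁
    have h2 : i ≤ J := Nat.findGreatest_le J
    refine ⟨i + 1, by omega, fun h3 => ?_, ?_, fun hn => ?_⟩
    · by_contra h4
      have := Nat.findGreatest_is_greatest (P := fun i => t ∉ S i) (n := J) (k := i + 1) (by omega) h3
      exact this h4
    · simpa using hf i h2 h1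
    · have := Nat.le_findGreatest (P := fun i => t ∉ S i) hj hn
      simpa using this

theorem LVL : LVL_stmt := by
  intro ε δ hε hε1 hδ
  set δ₁ : ℝ := min (δ / 6) (1 / 2) with hδ₁
  have hδ₁0 : 0 < δ₁ := lt_min (by positivity) (by norm_num)
  have hδ₁a : δ₁ ≤ δ / 6 := min_le_left _ _
  have hδ₁b : δ₁ ≤ 1 / 2 := min_le_right _ _
  set γ : ℝ := min (δ₁ / 2) (ε * δ₁) with hγ
  have hγ0 : 0 < γ := lt_min (by positivity) (by positivity)
  have hγ1 : γ ≤ δ₁ / 2 := min_le_left _ _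
  have hγ2 : γ ≤ ε * δ₁ := min_le_right _ _
  set J : ℕ := ⌈6 / γ⌉₊ with hJ
  have hJ0 : (6 : ℝ) / γ ≤ J := Nat.le_ceil _
  have hJp : (0 : ℝ) < J := lt_of_lt_of_le (by positivity) hJ0
  set h : ℝ := 1 / (2 * J) with hh
  have hh0 : 0 < h := by positivity
  have hJh : (J : ℝ) * h = 1 / 2 := by
    rw [hh]
    field_simp
  have hhγ : h ≤ γ / 12 := by
    rw [hh, div_le_div_iff₀ (by positivity) (by norm_num)]
    rw [div_le_iff₀ hγ0] at hJ0
    nlinarith
  set κ : ℝ := min (γ / 24) (δ / 4) with hκ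
  have hκ0 : 0 < κ := lt_min (by positivity) (by positivity)
  have hκ1 : κ ≤ γ / 24 := min_le_left _ _
  have hκ2 : κ ≤ δ / 4 := min_le_right _ _
  set j₁ : ℕ := ⌊δ₁ / h⌋₊ with hj₁
  have hj1a : (j₁ : ℝ) * h ≤ δ₁ := by
    have := Nat.floor_le (show 0 ≤ δ₁ / h by positivity)
    rw [le_div_iff₀ hh0] at this
    exact this
  have hj1b : δ₁ - h < (j₁ : ℝ) * h := by
    have := Nat.lt_floor_add_one (δ₁ / h)
    rw [div_lt_iff₀ hh0] at this
    rw [← hj₁] at this
    linarith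
  have hj1J : j₁ ≤ J := by
    have h1 : (j₁ : ℝ) * h ≤ J * h := by rw [hJh]; linarith
    exact_mod_cast le_of_mul_le_mul_right h1 hh0
  have hc : 11 / 12 * δ₁ ≤ (j₁ : ℝ) * h := by linarith
  refine ⟨κ, max 1 (((J : ℝ) + 2) ^ 2) ^ (1 / κ), hκ0, by linarith, ?_⟩
  intro x T hx hT hTx f p hfc hpc hf0 hp0 hfp hf hp
  have hbase : (1 : ℝ) ≤ max 1 (((J : ℝ) + 2) ^ 2) := le_max_left _ _
  have hx1 : 1 ≤ x := le_trans (Real.one_le_rpow hbase (by positivity)) hx
  have hx0 : 0 < x := by linarith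
  have hxκ : ((J : ℝ) + 2) ^ 2 ≤ x ^ κ := by
    have h1 := Real.rpow_le_rpow (by positivity) hx hκ0.le
    rw [← Real.rpow_mul (by positivity), one_div_mul_cancel hκ0.ne', Real.rpow_one] at h1
    exact (le_max_right _ _).trans h1
  have hT0 : 0 < T := by linarith
  have hlev : ∀ j : ℕ, j ≤ J → 0 ≤ (j : ℝ) * h ∧ (j : ℝ) * h ≤ 1 / 2 := by
    intro j hj
    refine ⟨by positivity, ?_⟩
    rw [← hJh]
    exact mul_le_mul_of_nonneg_right (by exact_mod_cast hj) hh0.le
  have hf' : ∀ j : ℕ, ∃ S : Set ℝ, j ≤ J → MeasurableSet S ∧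
      volume S ≤ ENNReal.ofReal (x ^ κ * T ^ (9 / 4 * ((j : ℝ) * h))) ∧
      ∀ t ∈ Set.Icc 0 T, t ∉ S → f t ≤ x ^ (2 - 2 * ((j : ℝ) * h) + κ) := by
    intro j
    by_cases hj : j ≤ J
    · obtain ⟨S, hS⟩ := hf _ (hlev j hj).1 (hlev j hj).2
      exact ⟨S, fun _ => hS⟩
    · exact ⟨∅, fun h1 => absurd h1 hj⟩
  have hp' : ∀ j : ℕ, ∃ S : Set ℝ, j ≤ J → MeasurableSet S ∧
      volume S ≤ ENNReal.ofReal (x ^ κ * T ^ (9 / 4 * ((j : ℝ) * h))) ∧
      ∀ t ∈ Set.Icc 0 T, t ∉ S → p t ≤ x ^ (1 - 1 * ((j : ℝ) * h) + κ) := by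
    intro j
    by_cases hj : j ≤ J
    · obtain ⟨S, h1, h2, h3⟩ := hp _ (hlev j hj).1 (hlev j hj).2
      refine ⟨S, fun _ => ⟨h1, h2, fun t ht hn => ?_⟩⟩
      rw [one_mul]
      exact h3 t ht hn
    · exact ⟨∅, fun h1 => absurd h1 hj⟩
  choose Sf hSf using hf'
  choose Sp hSp using hp'
  -- the exceptional set
  set E : Set ℝ := Sf j₁ ∩ Sp j₁ with hE
  refine ⟨E, (hSf j₁ hj1J).1.inter (hSp j₁ hj1J).1, ?_, ?_⟩
  · refine (measure_mono Set.inter_subset_left).trans ((hSf j₁ hj1J).2.1.trans ?_)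
    refine ENNReal.ofReal_le_ofReal ?_
    have h1 : T ^ (9 / 4 * ((j₁ : ℝ) * h)) ≤ x ^ (3 * δ₁) := by
      calc T ^ (9 / 4 * ((j₁ : ℝ) * h)) ≤ (x ^ (4 / 3 - ε)) ^ (9 / 4 * ((j₁ : ℝ) * h)) :=
            Real.rpow_le_rpow hT0.le hTx (by positivity)
        _ = x ^ ((4 / 3 - ε) * (9 / 4 * ((j₁ : ℝ) * h))) := by rw [← Real.rpow_mul hx0.le]
        _ ≤ x ^ (3 * δ₁) := by
            refine Real.rpow_le_rpow_of_exponent_le hx1 ?_
            have h2 : 0 ≤ ε * ((j₁ : ℝ) * h) := by positivity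
            nlinarith
    calc x ^ κ * T ^ (9 / 4 * ((j₁ : ℝ) * h)) ≤ x ^ κ * x ^ (3 * δ₁) :=
          mul_le_mul_of_nonneg_left h1 (by positivity)
      _ = x ^ (κ + 3 * δ₁) := by rw [← Real.rpow_add hx0]
      _ ≤ x ^ δ := Real.rpow_le_rpow_of_exponent_le hx1 (by linarith)
  -- pairs of levels
  set al : ℕ → ℝ := fun j => ((j - 1 : ℕ) : ℝ) * h with hal
  have hal0 : ∀ j, 0 ≤ al j := fun j => by rw [hal]; positivity
  set P : ℕ × ℕ → Set ℝ := fun q => {t | t ∈ Set.Icc 0 T ∧ (q.1 ≤ J → t ∈ Sf q.1) ∧ (q.2 ≤ J → t ∈ Sp q.2)} with hP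
  set M : ℕ × ℕ → ℝ := fun q => x ^ (2 - 2 * al q.1 + κ) * x ^ (1 - 1 * al q.2 + κ) with hM
  set G : Finset (ℕ × ℕ) := ((Finset.range (J + 2)) ×ˢ (Finset.range (J + 2))).filter
    (fun q => (j₁ : ℝ) * h ≤ max (al q.1) (al q.2)) with hG
  have hPm : ∀ q, MeasurableSet (P q) := by
    intro q
    have e : P q = Set.Icc 0 T ∩ ((if q.1 ≤ J then Sf q.1 else Set.univ) ∩ (if q.2 ≤ J then Sp q.2 else Set.univ)) := by
      ext t
      simp only [hP, Set.mem_setOf_eq, Set.mem_inter_iff]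
      constructor
      · rintro ⟨h1, h2, h3⟩
        refine ⟨h1, ?_, ?_⟩
        · split_ifs with h4
          · exact h2 h4
          · trivial
        · split_ifs with h4
          · exact h3 h4
          · trivial
      · rintro ⟨h1, h2, h3⟩
        refine ⟨h1, fun h4 => ?_, fun h4 => ?_⟩
        · rw [if_pos h4] at h2
          exact h2
        · rw [if_pos h4] at h3
          exact h3
    rw [e]
    refine measurableSet_Icc.inter (MeasurableSet.inter ?_ ?_)
    · split_ifs with h4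
      · exact (hSf _ h4).1
      · exact MeasurableSet.univ
    · split_ifs with h4
      · exact (hSp _ h4).1
      · exact MeasurableSet.univ
  -- measure of the pieces
  have hjh : ∀ j : ℕ, (j : ℝ) * h ≤ al j + h := by
    intro j
    rcases Nat.eq_zero_or_pos j with h1 | h1
    · subst h1
      simp only [hal, Nat.cast_zero, zero_mul]
      linarith [hal0 0]
    · have h2 : ((j - 1 : ℕ) : ℝ) = (j : ℝ) - 1 := by
        rw [Nat.cast_sub h1]
        simp
      simp only [hal, h2]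
      linarith
  have hmeas : ∀ q : ℕ × ℕ, q.1 ≤ J + 1 → q.2 ≤ J + 1 →
      volume (P q) ≤ ENNReal.ofReal (x ^ κ * T ^ (9 / 4 * (min (al q.1) (al q.2) + h))) := by
    intro q hq1 hq2
    have hmono : ∀ u v : ℝ, u ≤ v → T ^ u ≤ T ^ v := fun u v huv => Real.rpow_le_rpow_of_exponent_le hT huv
    have hxk : 1 ≤ x ^ κ := Real.one_le_rpow hx1 hκ0.le
    have htop : volume (P q) ≤ ENNReal.ofReal (x ^ κ * T ^ (9 / 4 * (1 / 2 + h))) := by
      refine (measure_mono (fun t ht => ht.1)).trans ?_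
      rw [Real.volume_Icc, sub_zero]
      refine ENNReal.ofReal_le_ofReal ?_
      have h1 : T ≤ T ^ (9 / 4 * (1 / 2 + h)) := by
        nth_rewrite 1 [← Real.rpow_one T]
        exact hmono _ _ (by linarith)
      have h2 : 0 ≤ T ^ (9 / 4 * (1 / 2 + h)) := by positivity
      nlinarith
    have htopal : al (J + 1) = 1 / 2 := by
      simp only [hal, Nat.add_sub_cancel]
      exact hJh
    rcases le_total (al q.1) (al q.2) with hle | hle
    · rw [min_eq_left hle]
      by_cases hj : q.1 ≤ J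
      · refine (measure_mono (fun t ht => ht.2.1 hj)).trans ((hSf _ hj).2.1.trans ?_)
        refine ENNReal.ofReal_le_ofReal (mul_le_mul_of_nonneg_left (hmono _ _ ?_) (by positivity))
        linarith [hjh q.1]
      · have h3 : q.1 = J + 1 := by omega
        rw [h3, htopal]
        exact htop
    · rw [min_eq_right hle]
      by_cases hj : q.2 ≤ J
      · refine (measure_mono (fun t ht => ht.2.2 hj)).trans ((hSp _ hj).2.1.trans ?_)
        refine ENNReal.ofReal_le_ofReal (mul_le_mul_of_nonneg_left (hmono _ _ ?_) (by positivity))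
        linarith [hjh q.2]
      · have h3 : q.2 = J + 1 := by omega
        rw [h3, htopal]
        exact htop
  have hfin : ∀ q, volume (P q) ≠ ⊤ := fun q =>
    ((measure_mono (fun t ht => ht.1)).trans_lt (by rw [Real.volume_Icc]; exact ENNReal.ofReal_lt_top)).ne
  -- each contribution
  have hcontr : ∀ q ∈ G, M q * (volume (P q)).toReal ≤ x ^ (3 - γ / 2) := by
    intro q hq
    rw [hG, Finset.mem_filter, Finset.mem_product, Finset.mem_range, Finset.mem_range] at hq
    have h1 : (volume (P q)).toReal ≤ x ^ κ * T ^ (9 / 4 * (min (al q.1) (al q.2) + h)) :=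
      ENNReal.toReal_le_of_le_ofReal (by positivity) (hmeas q (by omega) (by omega))
    have hmin0 : 0 ≤ min (al q.1) (al q.2) := le_min (hal0 _) (hal0 _)
    have h2 : T ^ (9 / 4 * (min (al q.1) (al q.2) + h)) ≤ x ^ ((3 - 9 / 4 * ε) * (min (al q.1) (al q.2) + h)) := by
      calc T ^ (9 / 4 * (min (al q.1) (al q.2) + h)) ≤ (x ^ (4 / 3 - ε)) ^ (9 / 4 * (min (al q.1) (al q.2) + h)) :=
            Real.rpow_le_rpow hT0.le hTx (by positivity)
        _ = x ^ ((3 - 9 / 4 * ε) * (min (al q.1) (al q.2) + h)) := by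
            rw [← Real.rpow_mul hx0.le]
            congr 1
            ring
    calc M q * (volume (P q)).toReal
        ≤ M q * (x ^ κ * x ^ ((3 - 9 / 4 * ε) * (min (al q.1) (al q.2) + h))) := by
          refine mul_le_mul_of_nonneg_left (h1.trans (mul_le_mul_of_nonneg_left h2 (by positivity))) ?_
          simp only [hM]
          positivity
      _ = x ^ (κ + (3 - 9 / 4 * ε) * (min (al q.1) (al q.2) + h) + (2 - 2 * al q.1 + κ) + (1 - 1 * al q.2 + κ)) := by
          simp only [hM]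
          rw [Real.rpow_add hx0 (κ + (3 - 9 / 4 * ε) * (min (al q.1) (al q.2) + h) + (2 - 2 * al q.1 + κ)),
            Real.rpow_add hx0 (κ + (3 - 9 / 4 * ε) * (min (al q.1) (al q.2) + h)), Real.rpow_add hx0 κ]
          ring
      _ ≤ x ^ (3 - γ / 2) := by
          refine Real.rpow_le_rpow_of_exponent_le hx1 ?_
          have := LVL_exp ε δ₁ γ κ h (al q.1) (al q.2) (j₁ * h) hε hδ₁0 hγ1 hγ2 hh0 hhγ hκ1 (hal0 _) (hal0 _) hc hq.2
          linarith
  -- pointwise bound
  have hpt : ∀ t ∈ Set.Icc 0 T \ E, f t * p t ≤ ∑ q ∈ G, (P q).indicator (fun _ => M q) t := by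
    intro t ht
    obtain ⟨j, hj1, hj2, hj3, hj4⟩ := LVL_level x κ h 2 J j₁ hj1J Sf f t 2 (hfp t ht.1).1
      (fun j hj hn => (hSf j hj).2.2 t ht.1 hn)
    obtain ⟨k, hk1, hk2, hk3, hk4⟩ := LVL_level x κ h 1 J j₁ hj1J Sp p t 1 (hfp t ht.1).2
      (fun j hj hn => (hSp j hj).2.2 t ht.1 hn)
    have hmem : (j, k) ∈ G := by
      rw [hG, Finset.mem_filter, Finset.mem_product, Finset.mem_range, Finset.mem_range]
      refine ⟨⟨by simp only; omega, by simp only; omega⟩, ?_⟩
      have h1 : t ∉ Sf j₁ ∨ t ∉ Sp j₁ := by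
        by_contra hcon
        push Not at hcon
        exact ht.2 hcon
      rcases h1 with h1 | h1
      · refine le_trans ?_ (le_max_left _ _)
        exact mul_le_mul_of_nonneg_right (by exact_mod_cast hj4 h1) hh0.le
      · refine le_trans ?_ (le_max_right _ _)
        exact mul_le_mul_of_nonneg_right (by exact_mod_cast hk4 h1) hh0.le
    have hin : t ∈ P (j, k) := ⟨ht.1, hj2, hk2⟩
    have hle : f t * p t ≤ M (j, k) := by
      simp only [hM, hal]
      exact mul_le_mul hj3 hk3 (hp0 t) (by positivity)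
    refine hle.trans ?_
    have h2 : M (j, k) = (P (j, k)).indicator (fun _ => M (j, k)) t := by
      rw [Set.indicator_of_mem hin]
    rw [h2]
    refine Finset.single_le_sum (f := fun q => (P q).indicator (fun _ => M q) t) (fun q _ => ?_) hmem
    refine Set.indicator_nonneg (fun _ _ => ?_) t
    simp only [hM]
    positivity
  have hEm : MeasurableSet (Set.Icc 0 T \ E) :=
    measurableSet_Icc.diff ((hSf j₁ hj1J).1.inter (hSp j₁ hj1J).1)
  have hint : ∀ q, Integrable ((P q).indicator (fun _ => M q)) := fun q =>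
    (integrable_indicator_iff (hPm q)).2 (integrableOn_const (hs := hfin q))
  have hint1 : IntegrableOn (fun t => f t * p t) (Set.Icc 0 T \ E) :=
    ((hfc.mul hpc).integrableOn_Icc (a := 0) (b := T)).mono_set Set.diff_subset
  calc ∫ t in Set.Icc 0 T \ E, f t * p t
      ≤ ∫ t in Set.Icc 0 T \ E, ∑ q ∈ G, (P q).indicator (fun _ => M q) t := by
        refine setIntegral_mono_on hint1 (integrable_finsetSum _ fun q _ => (hint q).integrableOn) hEm hpt
    _ = ∑ q ∈ G, ∫ t in Set.Icc 0 T \ E, (P q).indicator (fun _ => M q) t :=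
        integral_finsetSum _ fun q _ => (hint q).integrableOn
    _ ≤ ∑ q ∈ G, M q * (volume (P q)).toReal := by
        refine Finset.sum_le_sum fun q _ => ?_
        have h1 : ∫ t in Set.Icc 0 T \ E, (P q).indicator (fun _ => M q) t ≤ ∫ t, (P q).indicator (fun _ => M q) t := by
          refine setIntegral_le_integral (hint q) (Filter.Eventually.of_forall fun t => ?_)
          refine Set.indicator_nonneg (fun _ _ => ?_) t
          simp only [hM]
          positivity
        refine h1.trans ?_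
        rw [integral_indicator (hPm q), setIntegral_const, smul_eq_mul, mul_comm, Measure.real]
    _ ≤ ∑ q ∈ G, x ^ (3 - γ / 2) := Finset.sum_le_sum hcontr
    _ = (G.card : ℝ) * x ^ (3 - γ / 2) := by rw [Finset.sum_const, nsmul_eq_mul]
    _ ≤ x ^ κ * x ^ (3 - γ / 2) := by
        refine mul_le_mul_of_nonneg_right ?_ (by positivity)
        refine le_trans ?_ hxκ
        have h1 : G.card ≤ (J + 2) * (J + 2) := by
          refine (Finset.card_filter_le _ _).trans ?_
          rw [Finset.card_product, Finset.card_range]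
        have h2 : (G.card : ℝ) ≤ ((J + 2) * (J + 2) : ℕ) := by exact_mod_cast h1
        refine h2.trans (le_of_eq ?_)
        push_cast
        ring
    _ = x ^ (κ + (3 - γ / 2)) := by rw [← Real.rpow_add hx0]
    _ ≤ x ^ (3 - κ) := Real.rpow_le_rpow_of_exponent_le hx1 (by linarith)

end Pool.Agent.SCT
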