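import Pool.Agent.helper94.SCT.Spec

/-!
# Project SCT (MP_ad8ced_nt), row TON: type I sums over sets of small measure
-/

set_option autoImplicit false

namespace Pool.Agent.SCT

open Finset ArithmeticFunction MeasureTheory
open Pool.Agent.CH (nit)

/-- summation by parts -/
private theorem TON_parts (f : ℕ → ℝ) (z : ℕ → ℂ) (K : ℕ) : ∀ N : ℕ, K ≤ N →
    ∑ k ∈ Ico K N, (f k : ℂ) * z k = (f N : ℂ) * ∑ k ∈ Ico K N, z k -
      ∑ j ∈ Ico K N, ((f (j + 1) - f j : ℝ) : ℂ) * ∑ k ∈ Ico K (j + 1), z k := by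
  intro N hN
  induction N, hN using Nat.le_induction with
  | base => simp
  | succ n hn ih =>
    rw [sum_Ico_succ_top hn, sum_Ico_succ_top hn, ih, sum_Ico_succ_top hn (fun j => ((f (j + 1) - f j : ℝ) : ℂ) *
      ∑ k ∈ Ico K (j + 1), z k), sum_Ico_succ_top hn]
    push_cast
    ring

private theorem TON_abel (f : ℕ → ℝ) (z : ℕ → ℂ) (K N : ℕ) (Q : ℝ) (hKN : K ≤ N) (hf : ∀ k, K ≤ k → f k ≤ f (k + 1))
    (hf0 : 0 ≤ f K) (hQ : ∀ j, K ≤ j → j ≤ N → ‖∑ k ∈ Ico K j, z k‖ ≤ Q) :
    ‖∑ k ∈ Ico K N, (f k : ℂ) * z k‖ ≤ 2 * f N * Q := by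
  have hQ0 : 0 ≤ Q := (norm_nonneg _).trans (hQ N hKN le_rfl)
  have hmono : f K ≤ f N := by
    induction N, hKN using Nat.le_induction with
    | base => exact le_rfl
    | succ n hn ih => exact (ih fun j h1 h2 => hQ j h1 (by omega)).trans (hf n hn)
  have hfN : 0 ≤ f N := hf0.trans hmono
  rw [TON_parts f z K N hKN]
  refine (norm_sub_le _ _).trans ?_
  have h1 : ‖(f N : ℂ) * ∑ k ∈ Ico K N, z k‖ ≤ f N * Q := by
    rw [norm_mul, Complex.norm_real, Real.norm_eq_abs, abs_of_nonneg hfN]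
    exact mul_le_mul_of_nonneg_left (hQ N hKN le_rfl) hfN
  have h2 : ‖∑ j ∈ Ico K N, ((f (j + 1) - f j : ℝ) : ℂ) * ∑ k ∈ Ico K (j + 1), z k‖ ≤ (f N - f K) * Q := by
    refine (norm_sum_le _ _).trans ?_
    have h3 : ∀ j ∈ Ico K N, ‖((f (j + 1) - f j : ℝ) : ℂ) * ∑ k ∈ Ico K (j + 1), z k‖ ≤ (f (j + 1) - f j) * Q := by
      intro j hj
      rw [mem_Ico] at hj
      have h4 : 0 ≤ f (j + 1) - f j := by linarith [hf j hj.1]
      rw [norm_mul, Complex.norm_real, Real.norm_eq_abs, abs_of_nonneg h4]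
      exact mul_le_mul_of_nonneg_left (hQ (j + 1) (by omega) (by omega)) h4
    refine (sum_le_sum h3).trans (le_of_eq ?_)
    rw [← sum_mul, sum_Ico_sub f hKN]
  have h5 : 0 ≤ f K * Q := by positivity
  nlinarith

/-- sums of `n^(-is)` over an interval -/
private theorem TON_int (hEM : Pool.Agent.CH.EM_stmt) (s : ℝ) (hs : s ≠ 0) (K j : ℕ) (hK : 1 ≤ K) (h1 : K ≤ j) (h2 : j ≤ 2 * K) :
    ‖∑ k ∈ Ico K j, nu s k‖ ≤ 2 * (4 * (2 * K) / |s| + 1 + |s| * Real.log (2 * K)) := by
  have hs0 : 0 < |s| := abs_pos.2 hs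
  have hK' : (1 : ℝ) ≤ K := by exact_mod_cast hK
  have key : ∀ N : ℕ, N ≤ 2 * K → ‖∑ n ∈ Ioc 0 N, nu s n‖ ≤ 4 * (2 * K) / |s| + 1 + |s| * Real.log (2 * K) := by
    intro N hN
    have hlog : 0 ≤ Real.log (2 * K) := Real.log_nonneg (by linarith)
    rcases Nat.eq_zero_or_pos N with h0 | h0
    · subst h0
      simp only [Ioc_self, sum_empty, norm_zero]
      positivity
    · have h3 := hEM (-s) N 0 (neg_ne_zero.2 hs) (by exact_mod_cast h0) le_rfl zero_le_one
      rw [Nat.floor_natCast, abs_neg] at h3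
      have h4 : ∑ n ∈ Ioc 0 N, nit (-s) (n + 0) = ∑ n ∈ Ioc 0 N, nu s n := by
        refine sum_congr rfl fun n _ => ?_
        rw [add_zero]
        rfl
      rw [h4] at h3
      refine h3.trans ?_
      have h5 : (N : ℝ) ≤ 2 * K := by exact_mod_cast hN
      have h6 : Real.log N ≤ Real.log (2 * K) := Real.log_le_log (by exact_mod_cast h0) h5
      have h7 : 4 * (N : ℝ) / |s| ≤ 4 * (2 * K) / |s| := div_le_div_of_nonneg_right (by linarith) hs0.le
      have h8 : |s| * Real.log N ≤ |s| * Real.log (2 * K) := mul_le_mul_of_nonneg_left h6 hs0.le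
      linarith
  have e1 : Ico K j = Ioc (K - 1) (j - 1) := by
    ext n
    rw [mem_Ico, mem_Ioc]
    omega
  have e2 := Finset.sum_Ioc_consecutive (fun n => nu s n) (Nat.zero_le (K - 1)) (show K - 1 ≤ j - 1 by omega)
  have e3 : ∑ k ∈ Ico K j, nu s k = ∑ n ∈ Ioc 0 (j - 1), nu s n - ∑ n ∈ Ioc 0 (K - 1), nu s n := by
    rw [e1, ← e2]
    ring
  rw [e3]
  refine (norm_sub_le _ _).trans ?_
  have h3 := key (j - 1) (by omega)
  have h4 := key (K - 1) (by omega)
  linarith

theorem TON (hSEP : SEP_stmt) (hDEC : DEC_stmt) (hEM : Pool.Agent.CH.EM_stmt) : TON_stmt := by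
  intro g hg ε c hε hε1
  obtain ⟨C₃, hC₃, hdec⟩ := (hDEC g hg).2 3
  have hint2 : Integrable fun v : ℝ => (1 + ‖v‖) ^ (-(2 : ℝ)) := integrable_one_add_norm (by simp)
  set I₂ : ℝ := ∫ v : ℝ, (1 + ‖v‖) ^ (-(2 : ℝ)) with hI₂
  have hI0 : 0 ≤ I₂ := integral_nonneg fun v => by positivity
  refine ⟨ε / 2, C₃ * 400 * (I₂ + 1) * 200, 128, by positivity, by positivity, ?_⟩
  intro x hx E hE hET hEv D K h a hD hK hDx hDK hh ha
  have hx1 : (128 : ℝ) ≤ x := by exact_mod_cast hx
  have hx0 : (0 : ℝ) < x := by linarith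
  set L : ℝ := Real.log x with hL
  have hL1 : 1 ≤ L := by
    rw [hL, Real.le_log_iff_exp_le hx0]
    linarith [Real.exp_one_lt_d9]
  set T : ℝ := (x : ℝ) ^ (4 / 3 - ε) with hT
  have hT1 : 1 ≤ T := Real.one_le_rpow (by linarith) (by linarith)
  have hD' : (1 : ℝ) ≤ D := by exact_mod_cast hD
  have hK' : (1 : ℝ) ≤ K := by exact_mod_cast hK
  have hDK' : (D : ℝ) * K ≤ 64 * (x : ℝ) ^ 2 := by exact_mod_cast hDK
  have hKx : (K : ℝ) ≤ 64 * (x : ℝ) ^ 2 := by nlinarith
  have hlogK : Real.log (2 * K) ≤ 3 * L := by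
    have h1 : Real.log (2 * K) ≤ Real.log ((x : ℝ) ^ 3) := by
      refine Real.log_le_log (by linarith) ?_
      have : 128 * (x : ℝ) ^ 2 ≤ (x : ℝ) ^ 3 := by
        rw [pow_succ (x : ℝ) 2]
        nlinarith [sq_nonneg (x : ℝ)]
      linarith
    rw [Real.log_pow] at h1
    exact_mod_cast h1
  have hlogK0 : 0 ≤ Real.log (2 * K) := Real.log_nonneg (by linarith)
  set b : ℕ → ℂ := fun k => (Real.log k : ℂ) ^ h with hb
  -- the weights
  set f : ℕ → ℝ := fun k => Real.log k ^ h with hf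
  have hfk : ∀ k, b k = (f k : ℂ) := fun k => by simp only [hb, hf]; push_cast; rfl
  have hfmono : ∀ k, K ≤ k → f k ≤ f (k + 1) := by
    intro k hk
    simp only [hf]
    refine pow_le_pow_left₀ (Real.log_natCast_nonneg k) (Real.log_le_log (by exact_mod_cast (by omega : 0 < k)) (by push_cast; linarith)) h
  have hf2 : f (2 * K) ≤ 3 * L := by
    simp only [hf]
    rcases Nat.le_one_iff_eq_zero_or_eq_one.1 hh with h0 | h0
    · rw [h0, pow_zero]
      linarith
    · rw [h0, pow_one]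
      push_cast
      exact hlogK
  have hf0 : 0 ≤ f K := pow_nonneg (Real.log_natCast_nonneg K) h
  -- bounds for the long polynomial
  have hB1 : ∀ s : ℝ, s ≠ 0 → ‖Bk K b s‖ ≤ 2 * (3 * L) * (2 * (4 * (2 * K) / |s| + 1 + |s| * (3 * L))) := by
    intro s hs
    unfold Bk
    have h1 := TON_abel f (fun k => nu s k) K (2 * K) (2 * (4 * (2 * K) / |s| + 1 + |s| * Real.log (2 * K))) (by omega)
      hfmono hf0 (fun j h1 h2 => TON_int hEM s hs K j hK h1 h2)
    have h2 : ∑ m ∈ Ico K (2 * K), b m * nu s m = ∑ k ∈ Ico K (2 * K), (f k : ℂ) * nu s k :=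
      sum_congr rfl fun k _ => by rw [hfk]
    rw [h2]
    refine h1.trans ?_
    have h3 : |s| * Real.log (2 * K) ≤ |s| * (3 * L) := mul_le_mul_of_nonneg_left hlogK (abs_nonneg s)
    have h4 : 0 ≤ 4 * (2 * (K : ℝ)) / |s| := by positivity
    have h5 : 0 ≤ |s| * Real.log (2 * K) := by positivity
    have hf2' : 0 ≤ f (2 * K) := pow_nonneg (Real.log_natCast_nonneg _) h
    refine mul_le_mul (by linarith) (by linarith) (by positivity) (by positivity)
  have hB2 : ∀ s : ℝ, ‖Bk K b s‖ ≤ K * (3 * L) := by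
    intro s
    unfold Bk
    refine (norm_sum_le _ _).trans ?_
    have h1 : ∀ k ∈ Ico K (2 * K), ‖b k * nu s k‖ ≤ 3 * L := by
      intro k hk
      rw [mem_Ico] at hk
      rw [norm_mul, nu_norm, mul_one, hfk, Complex.norm_real, Real.norm_eq_abs,
        abs_of_nonneg (pow_nonneg (Real.log_natCast_nonneg k) h)]
      refine le_trans ?_ hf2
      simp only [hf]
      refine pow_le_pow_left₀ (Real.log_natCast_nonneg k) (Real.log_le_log (by exact_mod_cast (by omega : 0 < k)) ?_) h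
      exact_mod_cast hk.2.le
    refine (sum_le_sum h1).trans (le_of_eq ?_)
    rw [sum_const, Nat.card_Ico, nsmul_eq_mul]
    have : 2 * K - K = K := by omega
    rw [this]
  have hBD : ∀ s : ℝ, ‖Bk D a s‖ ≤ D * L ^ c := by
    intro s
    unfold Bk
    refine (norm_sum_le _ _).trans ?_
    have h1 : ∀ k ∈ Ico D (2 * D), ‖a k * nu s k‖ ≤ L ^ c := by
      intro k hk
      rw [norm_mul, nu_norm, mul_one]
      exact ha k hk
    refine (sum_le_sum h1).trans (le_of_eq ?_)
    rw [sum_const, Nat.card_Ico, nsmul_eq_mul]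
    have : 2 * D - D = D := by omega
    rw [this]
  -- pointwise bound
  have hpt : ∀ t : ℝ, 1 ≤ t → ‖B2 g ((x : ℝ) ^ 2) D K a b t‖ ≤
      C₃ * 400 * I₂ * (D * L ^ (c + 2)) * (K / t + t) := by
    intro t ht
    have ht0 : 0 < t := by linarith
    have hKt : 0 ≤ (K : ℝ) / t := by positivity
    have hQ : 0 ≤ 400 * L ^ 2 * (K / t + t) := by positivity
    refine (hSEP g hg _ D K a b t (by positivity) hD hK).trans ?_
    have hpw : ∀ v : ℝ, ‖Mt g ((v : ℂ) * Complex.I)‖ * (‖Bk D a (t + v)‖ * ‖Bk K b (t + v)‖) ≤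
        (C₃ * (D * L ^ c) * (400 * L ^ 2 * (K / t + t))) * (1 + ‖v‖) ^ (-(2 : ℝ)) := by
      intro v
      have hd := hdec ((v : ℂ) * Complex.I) (by simp)
      have hn : ‖(v : ℂ) * Complex.I‖ = |v| := by
        rw [norm_mul, Complex.norm_I, mul_one, Complex.norm_real, Real.norm_eq_abs]
      rw [hn] at hd
      have hv0 : 0 < 1 + |v| := by positivity
      have hd' : ‖Mt g ((v : ℂ) * Complex.I)‖ ≤ C₃ / (1 + |v|) ^ 3 := by
        rw [le_div_iff₀ (by positivity)]
        exact hd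
      have hrp : (1 + ‖v‖) ^ (-(2 : ℝ)) = 1 / (1 + |v|) ^ 2 := by
        rw [Real.norm_eq_abs, Real.rpow_neg hv0.le, Real.rpow_two, one_div]
      rw [hrp]
      have hkey : ‖Bk K b (t + v)‖ / (1 + |v|) ≤ 400 * L ^ 2 * (K / t + t) := by
        rw [div_le_iff₀ hv0]
        rcases le_or_gt (|v|) (t / 2) with hv | hv
        · have h1 : t / 2 ≤ |t + v| := by
            have := abs_le.1 hv
            rw [abs_of_nonneg (by linarith)]
            linarith
          have h2 : |t + v| ≤ 3 * t / 2 := by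
            have := abs_le.1 hv
            rw [abs_of_nonneg (by linarith)]
            linarith
          have h3 : t + v ≠ 0 := by
            intro h4
            rw [h4, abs_zero] at h1
            linarith
          have h5 := hB1 (t + v) h3
          have h6 : 4 * (2 * (K : ℝ)) / |t + v| ≤ 16 * (K / t) := by
            rw [div_le_iff₀ (by linarith)]
            have h7 : 16 * ((K : ℝ) / t) * (t / 2) = 8 * K := by field_simp; ring
            have h8 : 16 * ((K : ℝ) / t) * (t / 2) ≤ 16 * (K / t) * |t + v| :=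
              mul_le_mul_of_nonneg_left h1 (by positivity)
            linarith
          have h9 : |t + v| * (3 * L) ≤ 3 * t / 2 * (3 * L) := mul_le_mul_of_nonneg_right h2 (by positivity)
          have h10 : ‖Bk K b (t + v)‖ ≤ 2 * (3 * L) * (2 * (16 * (K / t) + 1 + 3 * t / 2 * (3 * L))) := by
            refine h5.trans ?_
            refine mul_le_mul_of_nonneg_left ?_ (by positivity)
            linarith
          have h11 : 2 * (3 * L) * (2 * (16 * (K / t) + 1 + 3 * t / 2 * (3 * L))) ≤ 400 * L ^ 2 * (K / t + t) := by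
            have e1 : 0 ≤ L * (L - 1) * (K / t) := by
              have : 0 ≤ L - 1 := by linarith
              positivity
            have e2 : 0 ≤ L * (L * t - 1) := by
              have : 1 ≤ L * t := by nlinarith
              have : 0 ≤ L * t - 1 := by linarith
              positivity
            nlinarith
          have h12 : 400 * L ^ 2 * (K / t + t) * 1 ≤ 400 * L ^ 2 * (K / t + t) * (1 + |v|) :=
            mul_le_mul_of_nonneg_left (by linarith [abs_nonneg v]) hQ
          linarith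
        · have h1 := hB2 (t + v)
          have h2 : (K : ℝ) = (K / t) * t := by field_simp
          have h3 : (K : ℝ) * (3 * L) ≤ 400 * L ^ 2 * (K / t) * (t / 2) := by
            have e1 : 400 * L ^ 2 * ((K : ℝ) / t) * (t / 2) = 200 * L ^ 2 * K := by field_simp; ring
            rw [e1]
            nlinarith [mul_nonneg (show (0 : ℝ) ≤ K by linarith) (show 0 ≤ L * (L - 1) by nlinarith)]
          have h4 : 400 * L ^ 2 * ((K : ℝ) / t) * (t / 2) ≤ 400 * L ^ 2 * (K / t) * (1 + |v|) :=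
            mul_le_mul_of_nonneg_left (by linarith) (by positivity)
          have h5 : 0 ≤ 400 * L ^ 2 * t * (1 + |v|) := by positivity
          nlinarith
      calc ‖Mt g ((v : ℂ) * Complex.I)‖ * (‖Bk D a (t + v)‖ * ‖Bk K b (t + v)‖)
          ≤ C₃ / (1 + |v|) ^ 3 * (D * L ^ c * ‖Bk K b (t + v)‖) :=
            mul_le_mul hd' (mul_le_mul_of_nonneg_right (hBD _) (norm_nonneg _)) (by positivity) (by positivity)
        _ = C₃ * (D * L ^ c) * (‖Bk K b (t + v)‖ / (1 + |v|)) * (1 / (1 + |v|) ^ 2) := by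
            field_simp
        _ ≤ C₃ * (D * L ^ c) * (400 * L ^ 2 * (K / t + t)) * (1 / (1 + |v|) ^ 2) := by
            refine mul_le_mul_of_nonneg_right (mul_le_mul_of_nonneg_left hkey (by positivity)) (by positivity)
    have h1 : ∫ v : ℝ, ‖Mt g ((v : ℂ) * Complex.I)‖ * (‖Bk D a (t + v)‖ * ‖Bk K b (t + v)‖) ≤
        ∫ v : ℝ, (C₃ * (D * L ^ c) * (400 * L ^ 2 * (K / t + t))) * (1 + ‖v‖) ^ (-(2 : ℝ)) := by
      refine integral_mono_of_nonneg (Filter.Eventually.of_forall fun v => by positivity) (hint2.const_mul _)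
        (Filter.Eventually.of_forall hpw)
    rw [integral_const_mul] at h1
    refine h1.trans (le_of_eq ?_)
    rw [← hI₂]
    ring
  -- the integral over `E`
  have hEfin : volume E ≠ ⊤ := (hEv.trans_lt ENNReal.ofReal_lt_top).ne
  have hcont : Continuous fun t : ℝ => ‖B2 g ((x : ℝ) ^ 2) D K a b t‖ := by
    unfold B2
    refine Continuous.norm (continuous_finsetSum _ fun m _ => continuous_finsetSum _ fun k _ => ?_)
    exact continuous_const.mul (nu_cont _)
  have hcmaj : ContinuousOn (fun t : ℝ => (K : ℝ) / t + t) (Set.Icc 1 T) := by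
    refine ContinuousOn.add (ContinuousOn.div continuousOn_const continuousOn_id fun t ht => ?_) continuousOn_id
    have h9 : 1 ≤ t := ht.1
    show t ≠ 0
    exact (zero_lt_one.trans_le h9).ne'
  have hi1 : IntegrableOn (fun t : ℝ => ‖B2 g ((x : ℝ) ^ 2) D K a b t‖) E :=
    (hcont.continuousOn.integrableOn_Icc (a := 1) (b := T)).mono_set hET
  have hiK : IntegrableOn (fun t : ℝ => (K : ℝ) / t) (Set.Icc 1 T) := by
    refine ContinuousOn.integrableOn_Icc (ContinuousOn.div continuousOn_const continuousOn_id fun t ht => ?_)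
    have h9 : 1 ≤ t := ht.1
    show t ≠ 0
    exact (zero_lt_one.trans_le h9).ne'
  have hit : IntegrableOn (fun t : ℝ => t) (Set.Icc 1 T) := continuousOn_id.integrableOn_Icc
  have hI1 : ∫ t in E, (K : ℝ) / t ≤ K * (2 * L) := by
    have h1 : ∫ t in E, (K : ℝ) / t ≤ ∫ t in Set.Icc 1 T, (K : ℝ) / t := by
      refine setIntegral_mono_set hiK ?_ (Filter.Eventually.of_forall hET)
      refine (ae_restrict_iff' measurableSet_Icc).2 (Filter.Eventually.of_forall fun t ht => ?_)
      have := ht.1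
      simp only [Pi.zero_apply]
      positivity
    refine h1.trans ?_
    rw [integral_Icc_eq_integral_Ioc, ← intervalIntegral.integral_of_le hT1]
    have h2 : ∫ t in (1 : ℝ)..T, (K : ℝ) / t = K * Real.log T := by
      have e1 : ∀ t : ℝ, (K : ℝ) / t = K * t⁻¹ := fun t => by rw [div_eq_mul_inv]
      simp only [e1]
      rw [intervalIntegral.integral_const_mul, integral_inv_of_pos one_pos (by linarith), div_one]
    rw [h2, hT, Real.log_rpow hx0]
    refine mul_le_mul_of_nonneg_left ?_ (by linarith)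
    nlinarith
  have hI2 : ∫ t in E, t ≤ T * (x : ℝ) ^ (ε / 2) := by
    have h1 : ∫ t in E, t ≤ ∫ _t in E, T := by
      refine setIntegral_mono_on (hit.mono_set hET) (integrableOn_const (hs := hEfin)) hE fun t ht => (hET ht).2
    refine h1.trans ?_
    rw [setIntegral_const, smul_eq_mul, mul_comm, Measure.real]
    exact mul_le_mul_of_nonneg_left (ENNReal.toReal_le_of_le_ofReal (by positivity) hEv) (by linarith)
  have hpow : (D : ℝ) * (T * (x : ℝ) ^ (ε / 2)) ≤ (x : ℝ) ^ 2 := by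
    calc (D : ℝ) * (T * (x : ℝ) ^ (ε / 2)) ≤ (x : ℝ) ^ (2 / 3 : ℝ) * (T * (x : ℝ) ^ (ε / 2)) :=
          mul_le_mul_of_nonneg_right hDx (by positivity)
      _ = (x : ℝ) ^ (2 / 3 + (4 / 3 - ε + ε / 2)) := by
          rw [hT, ← Real.rpow_add hx0, ← Real.rpow_add hx0]
      _ ≤ (x : ℝ) ^ (2 : ℝ) := Real.rpow_le_rpow_of_exponent_le (by linarith) (by linarith)
      _ = (x : ℝ) ^ 2 := Real.rpow_two _
  calc ∫ t in E, ‖B2 g ((x : ℝ) ^ 2) D K a b t‖
      ≤ ∫ t in E, C₃ * 400 * I₂ * (D * L ^ (c + 2)) * (K / t + t) := by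
        refine setIntegral_mono_on hi1 (((hiK.add hit).mono_set hET).const_mul _) hE fun t ht => hpt t (hET ht).1
    _ = C₃ * 400 * I₂ * (D * L ^ (c + 2)) * ((∫ t in E, (K : ℝ) / t) + ∫ t in E, t) := by
        rw [integral_const_mul, integral_add (hiK.mono_set hET) (hit.mono_set hET)]
    _ ≤ C₃ * 400 * I₂ * (D * L ^ (c + 2)) * (K * (2 * L) + T * (x : ℝ) ^ (ε / 2)) := by
        refine mul_le_mul_of_nonneg_left (add_le_add hI1 hI2) (by positivity)
    _ = C₃ * 400 * I₂ * L ^ (c + 2) * ((D * K) * (2 * L) + D * (T * (x : ℝ) ^ (ε / 2))) := by ring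
    _ ≤ C₃ * 400 * I₂ * L ^ (c + 2) * ((64 * (x : ℝ) ^ 2) * (2 * L) + (x : ℝ) ^ 2) := by
        refine mul_le_mul_of_nonneg_left (add_le_add (mul_le_mul_of_nonneg_right hDK' (by positivity)) hpow) (by positivity)
    _ ≤ C₃ * 400 * (I₂ + 1) * L ^ (c + 2) * (200 * (x : ℝ) ^ 2 * L) := by
        have h1 : (64 * (x : ℝ) ^ 2) * (2 * L) + (x : ℝ) ^ 2 ≤ 200 * (x : ℝ) ^ 2 * L := by
          nlinarith [sq_nonneg (x : ℝ), mul_nonneg (sq_nonneg (x : ℝ)) (show 0 ≤ L - 1 by linarith)]
        refine mul_le_mul ?_ h1 (by positivity) (by positivity)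
        refine mul_le_mul_of_nonneg_right ?_ (by positivity)
        nlinarith
    _ = C₃ * 400 * (I₂ + 1) * 200 * (x : ℝ) ^ 2 * L ^ (c + 3) := by ring

end Pool.Agent.SCT
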