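import Pool.Agent.helper45.CH.EM
import Pool.Agent.helper98.CH.HOL
import Pool.Agent.helper79.CH.LINA
import Pool.Agent.helper83.CH.LIN
import Pool.Agent.helper52.CH.JB
import Pool.Agent.helper17.CH.STE
import Pool.Agent.helper37.CH.REC
import Pool.Agent.helper89.CH.VMV
import Pool.Agent.helper37.CH.DH
import Pool.Agent.helper28.CH.TJ
import Pool.Agent.helper22.CH.LOC
import Pool.Agent.helper16.CH.DYS
import Pool.Agent.helper43.CH.ES
import Pool.Agent.helper94.CH.CHS
import Pool.Agent.helper69.CH.RGH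
import Pool.Agent.helper40.CH.RC
import Pool.Agent.helper75.CH.LD
import Pool.Agent.helper15.CH.LB
import Pool.Agent.helper61.CH.LG
import Pool.Agent.helper65.CH.LF
import Pool.Agent.helper70.CH.FS
import Pool.Agent.helper67.CH.VP
import Pool.Agent.helper50.SCT.ASY
import Pool.Agent.helper35.SCT.BLK
import Pool.Agent.helper79.SCT.BMP
import Pool.Agent.helper17.SCT.BOX
import Pool.Agent.helper47.SCT.BTI
import Pool.Agent.helper18.SCT.COF
import Pool.Agent.helper50.SCT.DEC
import Pool.Agent.helper89.SCT.FAR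
import Pool.Agent.helper47.SCT.FFA
import Pool.Agent.helper17.SCT.FIN1
import Pool.Agent.helper32.SCT.FIN2
import Pool.Agent.helper94.SCT.FOU
import Pool.Agent.helper79.SCT.HMI
import Pool.Agent.helper54.SCT.INT
import Pool.Agent.helper72.SCT.INV
import Pool.Agent.helper18.SCT.KSS
import Pool.Agent.helper88.SCT.LDB
import Pool.Agent.helper30.SCT.LOW
import Pool.Agent.helper94.SCT.LVL
import Pool.Agent.helper31.SCT.MEL
import Pool.Agent.helper79.SCT.MES
import Pool.Agent.helper94.SCT.ND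
import Pool.Agent.helper71.SCT.NEAR
import Pool.Agent.helper83.SCT.PAV
import Pool.Agent.helper11.SCT.PNF
import Pool.Agent.helper82.SCT.PNM
import Pool.Agent.helper17.SCT.PPW
import Pool.Agent.helper32.SCT.SEC
import Pool.Agent.helper89.SCT.SEP
import Pool.Agent.helper49.SCT.SZA
import Pool.Agent.helper94.SCT.TON
import Pool.Agent.helper57.SCT.TRV
import Pool.Agent.helper78.SCT.TTW
import Pool.Agent.helper47.SCT.TWS
import Pool.Agent.helper13.SCT.UPP
import Pool.Agent.helper49.SCT.VAW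
import Pool.Agent.helper30.SCT.VPP

/-!
# Project SCT (MP_ad8ced_nt): assembly of the rows
-/

set_option autoImplicit false

namespace Pool.Agent.SCT.All

open Pool.Agent.SCT

theorem EM_all : Pool.Agent.CH.EM_stmt := Pool.Agent.CH.EM
theorem LIN_all : Pool.Agent.CH.LIN_stmt := Pool.Agent.CH.LIN Pool.Agent.CH.LINA
theorem STE_all : Pool.Agent.CH.STE_stmt := Pool.Agent.CH.STE Pool.Agent.CH.HOL LIN_all Pool.Agent.CH.JB
theorem REC_all : Pool.Agent.CH.REC_stmt := Pool.Agent.CH.REC STE_all Pool.Agent.CH.JB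
theorem VMV_all : Pool.Agent.CH.VMV_stmt := Pool.Agent.CH.VMV REC_all Pool.Agent.CH.JB
theorem DH_all : Pool.Agent.CH.DH_stmt := Pool.Agent.CH.DH Pool.Agent.CH.JB
theorem LOC_all : Pool.Agent.CH.LOC_stmt := Pool.Agent.CH.LOC VMV_all DH_all Pool.Agent.CH.TJ
theorem DYS_all : Pool.Agent.CH.DYS_stmt := Pool.Agent.CH.DYS LOC_all
theorem ES_all : Pool.Agent.CH.ES_stmt := Pool.Agent.CH.ES DYS_all EM_all
theorem CHS_all : Pool.Agent.CH.CHS_stmt := Pool.Agent.CH.CHS ES_all
theorem RGH_all : Pool.Agent.CH.RGH_stmt := Pool.Agent.CH.RGH CHS_all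
theorem LD_all : Pool.Agent.CH.LD_stmt := Pool.Agent.CH.LD RGH_all Pool.Agent.CH.RC
theorem LB_all : Pool.Agent.CH.LB_stmt := Pool.Agent.CH.LB LD_all Pool.Agent.CH.RC
theorem LG_all : Pool.Agent.CH.LG_stmt := Pool.Agent.CH.LG LD_all LB_all
theorem LF_all : Pool.Agent.CH.LF_stmt := Pool.Agent.CH.LF LG_all
theorem VP_all : Pool.Agent.CH.VP_stmt := Pool.Agent.CH.VP LF_all Pool.Agent.CH.FS
theorem DEC_all : DEC_stmt := DEC
theorem TRV_all : TRV_stmt := TRV
theorem INV_all : INV_stmt := INV DEC_all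
theorem FOU_all : FOU_stmt := FOU INV_all DEC_all TRV_all
theorem PNF_all : PNF_stmt := PNF
theorem PNM_all : PNM_stmt := PNM
theorem VPP_all : VPP_stmt := VPP VP_all
theorem SEP_all : SEP_stmt := SEP INV_all
theorem TON_all : TON_stmt := TON SEP_all DEC_all EM_all
theorem BLK_all : BLK_stmt := BLK HMI KSS
theorem TTW_all : TTW_stmt := TTW SEP_all BLK_all DEC_all
theorem NEAR_all : NEAR_stmt := NEAR VAW TON_all TTW_all COF
theorem MEL_all : MEL_stmt := MEL INV_all DEC_all
theorem BOX_all : BOX_stmt := BOX LDB MEL_all DEC_all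
theorem MES_all : MES_stmt := MES ND
theorem FAR_all : FAR_stmt := FAR TRV_all BOX_all MES_all LVL
theorem INT_all : INT_stmt := INT FOU_all DEC_all TRV_all PNF_all VPP_all NEAR_all FAR_all
theorem SZA_all : SZA_stmt := SZA PNM_all
theorem LOW_all : LOW_stmt := LOW BMP INT_all SZA_all
theorem UPP_all : UPP_stmt := UPP BMP INT_all SZA_all
theorem ASY_all : ASY_stmt := ASY LOW_all UPP_all PPW
theorem PAV_all : PAV_stmt := PAV TWS FFA
theorem SEC_all : SEC_stmt := SEC TWS BTI PAV_all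
theorem FIN1_all : FIN1_stmt := FIN1 ASY_all SEC_all
theorem FIN2_all : FIN2_stmt := FIN2 ASY_all BTI

end Pool.Agent.SCT.All
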