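import Pool.Agent.helper17.CH.SpecW
import Pool.Agent.helper78.ED.Defs2

/-!
# Project SCT (MP_ad8ced_nt): definitions and basic lemmas

`nit t x = exp (i t log x)` (helper17/CH/Defs.lean), `nu t n = n^(-it)`.
-/

set_option autoImplicit false

namespace Pool.Agent.SCT

open Finset ArithmeticFunction MeasureTheory
open Pool.Agent.CH (nit)

/-- smooth functions with compact support -/
def Sm (φ : ℝ → ℝ) : Prop := ContDiff ℝ (⊤ : ℕ∞) φ ∧ HasCompactSupport φ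

/-- the transform `∫ φ(u) e^(su) du` -/
noncomputable def Mt (φ : ℝ → ℝ) (s : ℂ) : ℂ := ∫ u : ℝ, (φ u : ℂ) * Complex.exp (s * u)

/-- `n^(-it)` -/
noncomputable def nu (t : ℝ) (n : ℕ) : ℂ := nit (-t) n

/-- the Dirichlet polynomial `∑ Λ(n) φ(log(n/N)) n^(-it)` -/
noncomputable def DL (φ : ℝ → ℝ) (N t : ℝ) : ℂ :=
  ∑' n : ℕ, (vonMangoldt n : ℂ) * (φ (Real.log ((n : ℝ) / N)) : ℂ) * nu t n

/-- the expected value `X^(1-it) ∫ g(u) e^((1-it)u) du` of `DL g X t`, `X = x²` -/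
noncomputable def F0 (g : ℝ → ℝ) (x : ℕ) (t : ℝ) : ℂ :=
  ((x : ℂ) ^ 2) ^ (1 - (t : ℂ) * Complex.I) * Mt g (1 - (t : ℂ) * Complex.I)

/-- Dirichlet polynomial of the block `[M, 2M)` -/
noncomputable def Bk (M : ℕ) (a : ℕ → ℂ) (t : ℝ) : ℂ := ∑ m ∈ Ico M (2 * M), a m * nu t m

/-- bilinear block with the smooth cutoff `g(log(mk/X))` -/
noncomputable def B2 (g : ℝ → ℝ) (X : ℝ) (M K : ℕ) (a b : ℕ → ℂ) (t : ℝ) : ℂ :=
  ∑ m ∈ Ico M (2 * M), ∑ k ∈ Ico K (2 * K),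
    a m * b k * (g (Real.log (((m * k : ℕ) : ℝ) / X)) : ℂ) * nu t (m * k)

/-- the dyadic exponents `(i, l)` with `2^(i+l)` near `x²` -/
def PQ (x : ℕ) : Finset (ℕ × ℕ) :=
  ((range (64 * x)) ×ˢ (range (64 * x))).filter fun w =>
    x ^ 2 ≤ 2 * 2 ^ (w.1 + w.2) ∧ 2 ^ (w.1 + w.2) ≤ 64 * x ^ 2

/-- the truncation point `X^(1/3)` of Vaughan's identity -/
noncomputable def Ux (x : ℕ) : ℕ := ⌊(x : ℝ) ^ (2 / 3 : ℝ)⌋₊

/-- coefficients `μ(d)`, `d ≤ U` -/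
noncomputable def cmu (U : ℕ) (d : ℕ) : ℂ := if d ≤ U then ((moebius d : ℤ) : ℂ) else 0

/-- coefficients `∑_{ab=d, a,b ≤ U} μ(a) Λ(b)` -/
noncomputable def ceU (U : ℕ) (d : ℕ) : ℂ := ((Pool.Agent.CH.eU U d : ℝ) : ℂ)

/-- coefficients `Λ(m)`, `m > U` -/
noncomputable def cLa (U : ℕ) (m : ℕ) : ℂ := if U < m then (vonMangoldt m : ℂ) else 0

/-- coefficients `∑_{d ∣ k, d > U} μ(d)` -/
noncomputable def cbe (U : ℕ) (k : ℕ) : ℂ := ((Pool.Agent.helper85.BVP.beta U k : ℝ) : ℂ)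

/-- the heights `t` such that `ζ` has a zero with `Re ≥ 1 - a`, `|Im - t| ≤ H` -/
def Bad (a H : ℝ) : Set ℝ := {t : ℝ | ∃ ρ : ℂ, riemannZeta ρ = 0 ∧ 1 - a ≤ ρ.re ∧ |ρ.im - t| ≤ H}

/-- the smoothed weighted number of the pairs `(m, n)` -/
noncomputable def Spn (φ g w : ℝ → ℝ) (x : ℕ) (η : ℝ) : ℝ :=
  ∑' m : ℕ, ∑' n : ℕ, vonMangoldt m * vonMangoldt n * φ (Real.log ((m : ℝ) / x)) *
    g (Real.log ((n : ℝ) / (x : ℝ) ^ 2)) * w ((Real.log n - Real.log (8 * (m : ℝ) ^ 2)) / η)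

/-- the expected value of `Spn` -/
noncomputable def S0 (φ g w : ℝ → ℝ) (x : ℕ) (η : ℝ) : ℝ :=
  ∑' m : ℕ, vonMangoldt m * φ (Real.log ((m : ℝ) / x)) *
    ∫ y in Set.Ioi (0 : ℝ), g (Real.log (y / (x : ℝ) ^ 2)) *
      w ((Real.log y - Real.log (8 * (m : ℝ) ^ 2)) / η)

/-- the number of the primes `p` in `(x, 2x]` with `8p² - b` prime -/
def cnt (x b : ℕ) : ℕ := #((Ioc x (2 * x)).filter fun p => p.Prime ∧ (8 * p ^ 2 - b).Prime)

/-- the number of the `b ≤ B` with `8p² - b` prime -/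
def cnb (B p : ℕ) : ℕ := #((Icc 1 B).filter fun b => (8 * p ^ 2 - b).Prime)

/-- the number of the pairs `(p, b)` -/
def Tot (x B : ℕ) : ℕ := ∑ b ∈ Icc 1 B, cnt x b

/-- the weighted number of the pairs -/
noncomputable def WT (x B : ℕ) : ℝ :=
  ∑ m ∈ Ioc x (2 * x), ∑ n ∈ Ico (8 * m ^ 2 - B) (8 * m ^ 2), vonMangoldt m * vonMangoldt n

/-- `∏_{l ∣ n} (1 + 1/l)` -/
noncomputable def ff (n : ℕ) : ℝ := ∏ l ∈ n.primeFactors, (1 + 1 / (l : ℝ))

/-! ## Basic lemmas -/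

theorem nu_norm (t : ℝ) (n : ℕ) : ‖nu t n‖ = 1 := by
  unfold nu nit
  rw [Complex.norm_exp_ofReal_mul_I]

theorem nu_mul (t : ℝ) {m n : ℕ} (hm : m ≠ 0) (hn : n ≠ 0) : nu t (m * n) = nu t m * nu t n := by
  unfold nu nit
  have h1 : (m : ℝ) ≠ 0 := by exact_mod_cast hm
  have h2 : (n : ℝ) ≠ 0 := by exact_mod_cast hn
  rw [← Complex.exp_add]
  congr 1
  push_cast
  rw [Real.log_mul h1 h2]
  push_cast
  ring

theorem nu_add (s t : ℝ) (n : ℕ) : nu (s + t) n = nu s n * nu t n := by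
  unfold nu nit
  rw [← Complex.exp_add]
  congr 1
  push_cast
  ring

theorem nu_neg (t : ℝ) (n : ℕ) : nu (-t) n = (starRingEnd ℂ) (nu t n) := by
  unfold nu nit
  rw [← Complex.exp_conj, map_mul, Complex.conj_ofReal, Complex.conj_I]
  congr 1
  push_cast
  ring

theorem nu_zero (n : ℕ) : nu 0 n = 1 := by
  unfold nu nit
  simp

theorem nu_cpow (t : ℝ) {n : ℕ} (hn : n ≠ 0) : nu t n = (n : ℂ) ^ (-((t : ℂ) * Complex.I)) := by
  unfold nu nit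
  have h : (n : ℂ) ≠ 0 := by exact_mod_cast hn
  rw [Complex.cpow_def_of_ne_zero h, ← Complex.natCast_log]
  congr 1
  push_cast
  ring

theorem nu_cont (n : ℕ) : Continuous fun t : ℝ => nu t n := by
  unfold nu nit
  fun_prop

theorem Sm.cont {φ : ℝ → ℝ} (h : Sm φ) : Continuous φ := h.1.continuous

theorem Sm.bound {φ : ℝ → ℝ} (h : Sm φ) : ∃ R : ℝ, 0 < R ∧ (∀ u, φ u ≠ 0 → |u| ≤ R) ∧ ∀ u, |φ u| ≤ R := by
  obtain ⟨R, hR⟩ := h.2.isCompact.isBounded.subset_closedBall 0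
  obtain ⟨C, hC⟩ := h.cont.bounded_above_of_compact_support h.2
  refine ⟨max (max R C) 1, by positivity, fun u hu => ?_, fun u => ?_⟩
  · have h1 := hR (subset_tsupport φ hu)
    rw [Metric.mem_closedBall, dist_zero_right, Real.norm_eq_abs] at h1
    exact h1.trans ((le_max_left R C).trans (le_max_left _ _))
  · exact ((Real.norm_eq_abs _).symm.le.trans (hC u)).trans ((le_max_right R C).trans (le_max_left _ _))

/-- `DL` as a finite sum -/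
theorem DL_eq {φ : ℝ → ℝ} {R : ℝ} (hR : ∀ u, φ u ≠ 0 → |u| ≤ R) {N : ℝ} (hN : 0 < N) (K : ℕ)
    (hK : N * Real.exp R ≤ K) (t : ℝ) : DL φ N t =
    ∑ n ∈ Icc 1 K, (vonMangoldt n : ℂ) * (φ (Real.log ((n : ℝ) / N)) : ℂ) * nu t n := by
  unfold DL
  refine tsum_eq_sum fun n hn => ?_
  rcases Nat.eq_zero_or_pos n with h0 | h0
  · subst h0
    simp
  · have h1 : K < n := by
      by_contra hc
      exact hn (mem_Icc.2 ⟨h0, by omega⟩)
    have h2 : φ (Real.log ((n : ℝ) / N)) = 0 := by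
      by_contra hc
      have h3 := hR _ hc
      have h4 : (K : ℝ) < n := by exact_mod_cast h1
      have h5 : Real.exp R < (n : ℝ) / N := by
        rw [lt_div_iff₀ hN]
        linarith [mul_comm N (Real.exp R)]
      have h6 : R < Real.log ((n : ℝ) / N) := by
        rw [Real.lt_log_iff_exp_lt ((Real.exp_pos R).trans h5)]
        exact h5
      linarith [le_abs_self (Real.log ((n : ℝ) / N))]
    rw [h2]
    simp

end Pool.Agent.SCT
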