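import Pool.Agent.helper94.SCT.Spec
import Pool.Agent.helper4.NF.All
import Pool.Agent.helper16.LW.All
import Pool.Agent.helper86.NF.AsmC

/-!
# Project SCT (MP_ad8ced_nt), row ND: the density theorem
-/

set_option autoImplicit false

namespace Pool.Agent.SCT

open Complex

/-- The set of the zeros `ρ` of the zeta function with `Re ρ ≥ σ` and `0 < Im ρ ≤ T`. -/
private def ND_Z (σ T : ℝ) : Set ℂ := {ρ : ℂ | riemannZeta ρ = 0 ∧ σ ≤ ρ.re ∧ 0 < ρ.im ∧ ρ.im ≤ T}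

private theorem ND_finite {σ T : ℝ} (hσ : 0 ≤ σ) : (ND_Z σ T).Finite := by
  have hb : Bornology.IsBounded ((Set.Icc (0 : ℝ) 1) ×ℂ (Set.Icc 0 T)) :=
    (Metric.isBounded_Icc _ _).reProdIm (Metric.isBounded_Icc _ _)
  refine (Pool.Agent.helper6.LD.zeros_finite hb).subset fun ρ hρ => ?_
  obtain ⟨h1, h2, h3, h4⟩ := hρ
  have h5 : ρ.re < 1 := by
    by_contra hc
    exact riemannZeta_ne_zero_of_one_le_re (not_lt.mp hc) h1
  refine ⟨?_, h1⟩
  rw [Complex.mem_reProdIm]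
  exact ⟨⟨by linarith, h5.le⟩, ⟨h3.le, h4⟩⟩

private theorem ND_wA {σ : ℝ} (h1 : σ ≤ 1) : Pool.Agent.NF.wA σ ≤ 9 / 4 * (1 - σ) := by
  unfold Pool.Agent.NF.wA Pool.Agent.NF.AA
  refine mul_le_mul_of_nonneg_right ?_ (by linarith)
  split_ifs with h2 h3 h4
  · rw [div_le_iff₀ (by linarith)]
    linarith
  · exact le_rfl
  · rw [div_le_iff₀ (by linarith)]
    linarith
  · norm_num

theorem ND : ND_stmt := by
  intro ε hε
  obtain ⟨C, hC, h⟩ := Pool.Agent.NF.nft_of Pool.Agent.NF.n_lvd Pool.Agent.LW.l_fin ε hε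
  refine ⟨C, hC, fun T σ hT h1 h2 => ?_⟩
  have hf : (ND_Z σ T).Finite := ND_finite (by linarith)
  refine ⟨hf, ?_⟩
  have hfc : (ND_Z σ T).ncard = hf.toFinset.card := Set.ncard_eq_toFinset_card _ hf
  have hord : (hf.toFinset.card : ℝ) ≤ ∑ ρ ∈ hf.toFinset, (analyticOrderNatAt riemannZeta ρ : ℝ) := by
    rw [Finset.card_eq_sum_ones, Nat.cast_sum]
    refine Finset.sum_le_sum fun ρ hρ => ?_
    have hz := ((Set.Finite.mem_toFinset hf).mp hρ)
    have h3 := Pool.Agent.helper6.LD.order_pos hz.1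
    exact_mod_cast h3
  have h3 := h T σ hT h1 h2 hf.toFinset (fun ρ hρ => (Set.Finite.mem_toFinset hf).mp hρ)
  have h4 : ((ND_Z σ T).ncard : ℝ) ≤ C * T ^ (Pool.Agent.NF.wA σ + ε) := by
    rw [hfc]
    exact hord.trans h3
  refine h4.trans (mul_le_mul_of_nonneg_left ?_ hC.le)
  exact Real.rpow_le_rpow_of_exponent_le hT (by linarith [ND_wA h2])

end Pool.Agent.SCT
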