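import Pool.Agent.helper94.SCT.Defs

/-!
# Project SCT (MP_ad8ced_nt): small constant terms

THEOREM (MAIN).  Let `ε > 0` and `x^(2/3+ε) ≤ B ≤ x²`.  The number of the pairs `(p, b)`, `p` prime in `(x, 2x]`,
`1 ≤ b ≤ B`, with `8p² - b` prime is `~ B x/(2 log² x)`; at least `c B` of the `b ≤ B` have at least `c x/log² x`
primes `p` in `(x, 2x]` with `8p² - b` prime; at least `c x/log x` primes `p` in `(x, 2x]` have at least `c B/log x`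
numbers `b ≤ B` with `8p² - b` prime.

METHOD.  `X = x²`, `η ≈ B/(8x²)`.  The number of the pairs `(m, n)`, `n ∈ (8m² - B, 8m²)`, with the weights `Λ(m) Λ(n)` is
compared with `∑ Λ(m) ∫ dy` by a Fourier integral: the difference is `η ∫ |w^(ηt)| |F(t) - F0(t)| |P(2t)| dt` with the
Dirichlet polynomials `F` (length `X`) and `P` (length `x`) over `Λ`.  `|t| ≤ (log x)^B`: prime number theorem.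
`|t| > x^(ε/2)/η`: rapid decay.  In between, up to the height `T = x^(4/3-ε/2)`: outside of a set `E` of measure `x^δ`
our density theorem `N(σ,T) ≤ T^(9/4 (1-σ) + ε)` (hand-in NineFourths of MP_4467b5_nt) gives a power saving (part D): if `a`, `b`
are the distances from the line `1` of the zeros near `t`, `2t`, then `|F(t) P(2t)| ≤ x^(3-2a-b)` on a set of measure
`T^(9/4 min(a,b)) ≤ x^((3-ε) min(a,b))`.  On `E`: Vaughan's identity with `U = V = X^(1/3)` and the Halász-Montgomery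
inequality give `∫_E |F| ≤ X (log x)^c`, and `|P(2t)| ≤ x (log x)^(-A)` by the Vinogradov-Korobov type bound of project CH.
The asymptotic formula follows by smooth weights on short pieces; the positive proportions by a second moment (sieve).

RULES.  File `Pool/Agent/<seat>/SCT/XX.lean`, `import Pool.Agent.helper94.SCT.Spec`, `namespace Pool.Agent.SCT`,
`theorem XX (h1 : YY_stmt) ... : XX_stmt` (hypotheses: the statements named in the docstring, or any other statement of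
this file, no circles), auxiliary lemmas prefixed `XX_` and private where possible.  Never change this file.  If a
statement is wrong or inconvenient tell helper94 at once.  No `convert`/`congr!`, no `native_decide`, no straight double
quotes.  Basic lemmas (`nu_norm`, `nu_mul`, `nu_add`, `nu_neg`, `nu_cpow`, `nu_cont`, `Sm.cont`, `Sm.bound`, `DL_eq`) are in Defs.lean.
-/

set_option autoImplicit false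

namespace Pool.Agent.SCT

open Finset ArithmeticFunction MeasureTheory
open Pool.Agent.CH (nit eU)
open Pool.Agent.helper78.ED (wg SS)
open Pool.Agent.helper85.BVP (beta)

/-! ## Part W: smooth weights -/

/-- **BMP** (short).  `ContDiffBump` with centre `(a+b)/2`, `rIn = (b-a)/2 - κ`, `rOut = (b-a)/2`. -/
def BMP_stmt : Prop := ∀ a b κ : ℝ, 0 < κ → 2 * κ < b - a → ∃ φ : ℝ → ℝ, Sm φ ∧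
  (∀ u, 0 ≤ φ u ∧ φ u ≤ 1) ∧ (∀ u, φ u ≠ 0 → a < u ∧ u < b) ∧ ∀ u, a + κ ≤ u → u ≤ b - κ → φ u = 1

/-- **DEC** (medium).  `Mt φ` is entire (differentiation under the integral sign, compact support).  Integration by parts:
`s * Mt φ s = - Mt φ' s`, and `φ'` (`deriv φ`) is again in `Sm`; induction on `k`: `‖s‖^k ‖Mt φ s‖ ≤ C_k` for `|Re s| ≤ 2`;
`(1 + ‖s‖)^k ≤ 2^k (1 + ‖s‖^k)`. -/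
def DEC_stmt : Prop := ∀ φ : ℝ → ℝ, Sm φ → Differentiable ℂ (Mt φ) ∧
  ∀ k : ℕ, ∃ C : ℝ, 0 < C ∧ ∀ s : ℂ, |s.re| ≤ 2 → ‖Mt φ s‖ * (1 + ‖s‖) ^ k ≤ C

/-- **INV** (medium, short).  From DEC.  `f(u) = φ(u) e^(σu)` is continuous and integrable, its Fourier transform at `ξ` is
`Mt φ (σ - 2πiξ)`, integrable by DEC (`k = 2`); Fourier inversion (`Continuous.fourierInv_fourier_eq` or
`MeasureTheory.Integrable.fourierInv_fourier_eq`), `τ = -2πξ`. -/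
def INV_stmt : Prop := ∀ φ : ℝ → ℝ, Sm φ → ∀ σ : ℝ, |σ| ≤ 2 →
  Integrable (fun τ : ℝ => Mt φ ((σ : ℂ) + (τ : ℂ) * Complex.I)) ∧
  ∀ u : ℝ, (φ u : ℂ) = 1 / (2 * (Real.pi : ℂ)) *
    ∫ τ : ℝ, Mt φ ((σ : ℂ) + (τ : ℂ) * Complex.I) * Complex.exp (-((σ : ℂ) + (τ : ℂ) * Complex.I) * u)

/-- **TRV** (short, medium).  `DL_eq` with `R` from `Sm.bound`.  `nu_neg`, real coefficients; finite sum of continuous functions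
(`nu_cont`); `|φ| ≤ R`, Chebyshev `∑_{n ≤ y} Λ(n) ≤ C y` (Mathlib or `psi_pnt` in helper74/TG/SW.lean). -/
def TRV_stmt : Prop := ∀ φ : ℝ → ℝ, Sm φ →
  (∀ N t : ℝ, 0 < N → DL φ N (-t) = (starRingEnd ℂ) (DL φ N t)) ∧ (∀ N : ℝ, 0 < N → Continuous (DL φ N)) ∧
  ∃ C : ℝ, 0 < C ∧ ∀ N t : ℝ, 1 ≤ N → ‖DL φ N t‖ ≤ C * N

/-! ## Part B: no zeros nearby means a small Dirichlet polynomial -/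

/-- **LDB** (medium).  `c = 2 + iτ`, `R = 1 + a`: the points of `ball c R` have real part `> 1 - a ≥ 1/2` and imaginary part at
distance `< 3/2` from `τ`: no zeros, not the point `1`.  `‖ζ z‖ ≤ C ‖z‖` (`zeta_growth`), `‖ζ c‖ ≥ 1/4` (`zeta_lower`; both
helper85/LD/G1.lean, namespace Pool.Agent.helper6.LD), so `‖ζ z‖ ≤ e^(C' log τ) ‖ζ c‖`; `coeff_bound` (helper13/LD/E2.lean): the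
Taylor coefficients of `logDeriv ζ` at `c` are `≤ 6 C' log τ (k+1)² R^(-k-1)`; Taylor series
(`Complex.hasSum_taylorSeries_on_ball`) at `z = σ + iτ`, `‖z - c‖ = 2 - σ ≤ R - δ`, ratio `≤ 1 - δ/2`.  Compare AC, TY of project
QZ (helper68/QZ/AC.lean). -/
def LDB_stmt : Prop := ∀ δ : ℝ, 0 < δ → δ ≤ 1 / 2 → ∃ C : ℝ, 0 < C ∧ ∀ a τ : ℝ, 0 ≤ a → a ≤ 1 / 2 → 10 ≤ τ →
  (∀ ρ : ℂ, riemannZeta ρ = 0 → 1 - a ≤ ρ.re → 2 ≤ |ρ.im - τ|) → ∀ σ : ℝ, 1 - a + δ ≤ σ → σ ≤ 2 →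
  riemannZeta ((σ : ℂ) + (τ : ℂ) * Complex.I) ≠ 0 ∧
    ‖logDeriv riemannZeta ((σ : ℂ) + (τ : ℂ) * Complex.I)‖ ≤ C * Real.log τ

/-- **MEL** (medium).  From INV, DEC (`σ = 2`).  `φ(log(n/N)) = (1/2π) ∫ Mt φ (2+iτ) n^(-2-iτ) N^(2+iτ) dτ`, multiply by `Λ(n) n^(-it)`, sum
over `n` (absolutely convergent, `∑ Λ(n) n^(-2)`; `MeasureTheory.hasSum_integral_of_summable_integral_norm`),
`∑ Λ(n) n^(-s) = -ζ'/ζ(s)` (`ArithmeticFunction.LSeries_vonMangoldt_eq_deriv_riemannZeta_div`). -/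
def MEL_stmt : Prop := ∀ φ : ℝ → ℝ, Sm φ → ∀ N t : ℝ, 1 ≤ N →
  DL φ N t = 1 / (2 * (Real.pi : ℂ)) * ∫ τ : ℝ, -logDeriv riemannZeta (2 + ((t + τ : ℝ) : ℂ) * Complex.I) *
    (Mt φ (2 + (τ : ℂ) * Complex.I) * (N : ℂ) ^ (2 + (τ : ℂ) * Complex.I))

/-- **BOX** (medium, long).  From LDB (with `δ/2`), MEL, DEC.  `H = N^δ/2`, `σ₁ = 1 - a + δ/2`.  `|τ| > H`: `‖logDeriv ζ‖ ≤ C` on `Re = 2`,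
`‖Mt φ (2+iτ)‖ ≤ C_k |τ|^(-k)` with `kδ ≥ 4`: contribution `≤ C N² H^(1-k) ≤ 1`.  `|τ| ≤ H`: Cauchy's theorem
(`Complex.integral_boundary_rect_eq_zero_of_differentiableOn`) for `logDeriv ζ (s + it) Mt φ (s) N^s` on `[σ₁, 2] × [-H, H]`:
at the height `y = t + τ ≥ 10` every zero with `Re ≥ 1 - a` has `|Im - y| ≥ |Im - t| - |τ| > N^δ - H ≥ 2`, so LDB applies (`ζ ≠ 0`,
`s + it ≠ 1`, the function is differentiable), `log y ≤ C log N`.  Horizontal sides `≤ C log N · C_k H^(-k) N² ≤ 1`; the side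
`Re = σ₁` `≤ C log N · N^(1-a+δ/2) ∫ ‖Mt φ (σ₁+iτ)‖ dτ`. -/
def BOX_stmt : Prop := ∀ φ : ℝ → ℝ, Sm φ → ∀ δ : ℝ, 0 < δ → δ ≤ 1 / 10 → ∃ N₀ : ℝ, ∀ N t a : ℝ, N₀ ≤ N →
  2 * N ^ δ ≤ t → t ≤ N ^ 4 → 0 ≤ a → a ≤ 1 / 2 → t ∉ Bad a (N ^ δ) → ‖DL φ N t‖ ≤ N ^ (1 - a + δ)

/-! ## Part D: the density theorem -/

/-- **ND** (short; the density theorem of MP_4467b5_nt, NineFourths).  Copy
Pool/Agent/Results/MP_4467b5_nt/NineFourths.lean (imports helper4.NF.All, helper16.LW.All, helper86.NF.AsmC, helper34.ZE.Asm):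
`NZ σ T ≤ C T^(A σ (1-σ) + ε)`, `A σ ≤ 9/4`; every zero has order `≥ 1` (`mult_le` / `one_le_mult` in helper63/ED/LC.lean). -/
def ND_stmt : Prop := ∀ ε : ℝ, 0 < ε → ∃ C : ℝ, 0 < C ∧ ∀ T σ : ℝ, 1 ≤ T → 1 / 2 ≤ σ → σ ≤ 1 →
  {ρ : ℂ | riemannZeta ρ = 0 ∧ σ ≤ ρ.re ∧ 0 < ρ.im ∧ ρ.im ≤ T}.Finite ∧
  ({ρ : ℂ | riemannZeta ρ = 0 ∧ σ ≤ ρ.re ∧ 0 < ρ.im ∧ ρ.im ≤ T}.ncard : ℝ) ≤ C * T ^ (9 / 4 * (1 - σ) + ε)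

/-- **MES** (short, medium).  From ND with `2T`: for `t ∈ [2H, T]` the zeros of `Bad a H` have `0 < H ≤ Im ρ ≤ T + H ≤ 2T`; the set is
the finite union of the intervals `[Im ρ - H, Im ρ + H] ∩ [2H, T]`. -/
def MES_stmt : Prop := ∀ ε : ℝ, 0 < ε → ∃ C : ℝ, 0 < C ∧ ∀ T H a : ℝ, 1 ≤ H → H ≤ T → 0 ≤ a → a ≤ 1 / 2 →
  MeasurableSet (Bad a H ∩ Set.Icc (2 * H) T) ∧
  volume (Bad a H ∩ Set.Icc (2 * H) T) ≤ ENNReal.ofReal (C * H * T ^ (9 / 4 * a + ε))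

/-- **LVL** (medium, long; real analysis).  Level sets.  `δ₁ = min (δ/6) (1/2)`, `γ = min (δ₁/2) (ε δ₁)`; `J` natural with `h = 1/(2J) ≤ γ/12`, the
grid `a_j = j h`, `0 ≤ j ≤ J`; `j₁ = ⌊δ₁/h⌋`, so `δ₁ ≥ a_(j₁) ≥ δ₁ - h ≥ (11/12) δ₁`; `κ = min (γ/24) (δ/4)`; `Sf_j`, `Sp_j` the sets given for
`a = a_j`.  `E = Sf_(j₁) ∩ Sp_(j₁) ∩ [0,T]`, measure `≤ x^κ T^(9/4 δ₁) ≤ x^(κ + 3δ₁) ≤ x^δ`.  For `t ∈ [0,T] \ E` let `j(t)` be the largest `j ≤ J` with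
`t ∉ Sf_j` (`none`, treated as `a = 0`, if there is none: then `t ∈ Sf_0`) and `k(t)` the same for `p`; `j(t) ≥ j₁` or `k(t) ≥ j₁`.  With
`a = a_(j(t))`, `b = a_(k(t))` (or `0`): `f p ≤ x^(3 - 2a - b + 2κ)`.  The set of the `t` with given `j, k` has measure
`≤ x^κ T^(9/4 (min(a,b) + h))`: if `j < J` it is contained in `Sf_(j+1)`, if `k < J` in `Sp_(k+1)`, and if `j = k = J` its measure is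
`≤ T ≤ T^(9/4 · 1/2)`; `T^(9/4) ≤ x^(3 - 9ε/4)`.  Total exponent
`≤ 3 + 3κ + 3h + (3 min(a,b) - 2a - b) - (9ε/4) min(a,b) ≤ 3 + 3κ + 3h - |a-b| - (9ε/4) min(a,b)`, and `max(a,b) ≥ (11/12) δ₁` gives
`|a-b| + (9ε/4) min(a,b) ≥ (11/12) γ` (`|a - b| ≥ (11/24) δ₁` or `min(a,b) ≥ (11/24) δ₁`).  So the exponent is `≤ 3 - γ/2`, and there are
`≤ (J+2)² ≤ x^κ` pairs. -/
def LVL_stmt : Prop := ∀ ε δ : ℝ, 0 < ε → ε ≤ 1 → 0 < δ → ∃ κ x₀ : ℝ, 0 < κ ∧ κ ≤ 1 / 2 ∧ ∀ x T : ℝ, x₀ ≤ x → 1 ≤ T →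
  T ≤ x ^ (4 / 3 - ε) → ∀ f p : ℝ → ℝ, Continuous f → Continuous p → (∀ t, 0 ≤ f t) → (∀ t, 0 ≤ p t) →
  (∀ t ∈ Set.Icc 0 T, f t ≤ x ^ (2 + κ) ∧ p t ≤ x ^ (1 + κ)) →
  (∀ a : ℝ, 0 ≤ a → a ≤ 1 / 2 → ∃ S : Set ℝ, MeasurableSet S ∧ volume S ≤ ENNReal.ofReal (x ^ κ * T ^ (9 / 4 * a)) ∧
    ∀ t ∈ Set.Icc 0 T, t ∉ S → f t ≤ x ^ (2 - 2 * a + κ)) →
  (∀ a : ℝ, 0 ≤ a → a ≤ 1 / 2 → ∃ S : Set ℝ, MeasurableSet S ∧ volume S ≤ ENNReal.ofReal (x ^ κ * T ^ (9 / 4 * a)) ∧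
    ∀ t ∈ Set.Icc 0 T, t ∉ S → p t ≤ x ^ (1 - a + κ)) →
  ∃ E : Set ℝ, MeasurableSet E ∧ volume E ≤ ENNReal.ofReal (x ^ δ) ∧
    ∫ t in Set.Icc 0 T \ E, f t * p t ≤ x ^ (3 - κ)

/-- **FAR** (medium).  From TRV, BOX, MES, LVL.  `κ₁` from LVL for `(ε, δ)`, `δ' = min (κ₁/8) (1/10)`, `f = ‖DL g (x²) ·‖`, `p t = ‖DL φ x (2t)‖`.  The
set for `f` at the level `a`: `N = x²`, `[0, 2N^δ'] ∪ (Bad a (N^δ') ∩ [2N^δ', T])` (only `[0, 2N^δ']` if `T < N^δ'`), measure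
`≤ 2N^δ' + C N^δ' T^(9/4 a + κ₁/4) ≤ x^κ₁ T^(9/4 a)` since `N^δ' ≤ x^(κ₁/4)`, `T^(κ₁/4) ≤ x^(κ₁/3)`; outside of it
`f t ≤ N^(1-a+δ') ≤ x^(2-2a+κ₁)`.  For `p`: `N = x`, the set of the `t` such that `2t` is in
`[0, 2x^δ'] ∪ (Bad a (x^δ') ∩ [2x^δ', 2T])`. -/
def FAR_stmt : Prop := ∀ φ g : ℝ → ℝ, Sm φ → Sm g → ∀ ε δ : ℝ, 0 < ε → ε ≤ 1 → 0 < δ → ∃ (κ : ℝ) (x₀ : ℕ), 0 < κ ∧
  ∀ x : ℕ, x₀ ≤ x → ∀ T : ℝ, 1 ≤ T → T ≤ (x : ℝ) ^ (4 / 3 - ε) → ∃ E : Set ℝ, MeasurableSet E ∧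
    volume E ≤ ENNReal.ofReal ((x : ℝ) ^ δ) ∧
    ∫ t in Set.Icc 0 T \ E, ‖DL g ((x : ℝ) ^ 2) t‖ * ‖DL φ x (2 * t)‖ ≤ (x : ℝ) ^ (3 - κ)

/-! ## Part N: mean values over sets of small measure -/

/-- **HMI** (medium; Halász-Montgomery inequality for a set).  `A(t) = ∑ c_n n^(-it)`, `I = ∫_E |A|²`.  `I = ∑_n c_n G_n`,
`G_n = ∫_E n^(-it) conj A(t) dt`; Cauchy-Schwarz: `I² ≤ (∑ |c_n|²/wg M n) ∑_n wg M n |G_n|²`, and (all `n`, the terms are `≥ 0`)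
`∑_n wg M n |G_n|² = ∫_E ∫_E conj A(t) A(t') SS M 0 (t - t') dt dt' ≤ ∫_E ∫_E (|A(t)|² + |A(t')|²)/2 ‖SS M 0 (t-t')‖ ≤ R I`
(`‖SS M 0 (-τ)‖ = ‖SS M 0 τ‖`).  `wg_sum`, `LV_wg_pos`, `SS_triv` (helper93/ED/WG.lean, helper78/ED/LV.lean; see
`large_values_of` there), `SS M 0 τ = ∑' wg M n · n^(-(0 + τ i))`. -/
def HMI_stmt : Prop := ∀ (E : Set ℝ) (u v : ℝ), MeasurableSet E → E ⊆ Set.Icc u v → ∀ S : Finset ℕ, 0 ∉ S →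
  ∀ (c : ℕ → ℂ) (M R : ℝ), 1 ≤ M → 0 ≤ R → (∀ t ∈ E, ∫ t' in E, ‖SS M 0 (t - t')‖ ≤ R) →
  ∫ t in E, ‖∑ n ∈ S, c n * nu t n‖ ^ 2 ≤ (∑ n ∈ S, ‖c n‖ ^ 2 / wg M n) * R

/-- **KSS** (short, medium).  `SS_refl_of k hk (X_line k) (X_strip k) (zeta_strip k)` (helper99/ED/RF.lean, helper85/ED/XR.lean; the
statement is `REFL_stmt` in helper15/DH/Spec.lean) with `k ≥ 1 + 1/ε`, `K = ⌈T^(1+ε)/M⌉₊`: `MK ≥ T^(1+ε)` so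
`T^k (MK)^(-(k-1/2)) ≤ 1`; `DK K u ≤ ∑_{n≤K} n^(-1/2) ≤ 2√K`, `Dt ≤ C √K`, `M K ≤ T^(1+ε) + M`. -/
def KSS_stmt : Prop := ∀ ε : ℝ, 0 < ε → ε ≤ 1 → ∃ C T₀ : ℝ, 0 < C ∧ ∀ T : ℝ, T₀ ≤ T → ∀ M τ : ℝ, 1 ≤ M → M ≤ T ^ 5 →
  Real.log T ≤ |τ| → |τ| ≤ T → ‖SS M 0 τ‖ ≤ C * (M ^ (1 / 2 : ℝ) + T ^ (1 / 2 + ε))

/-- **BLK** (medium).  From HMI, KSS, `SS_triv`.  `T = x^(4/3-ε)` (`T^5 ≥ x^3`), `δ = ε/8`, KSS with `ε/16`.  For `t ∈ E`: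
`∫_E ‖SS M 0 (t-t')‖ dt' ≤ 2 log T · C M + x^δ C (M^(1/2) + T^(1/2+ε/16)) ≤ C' M log x`, since
`T^(1/2+ε/16) x^δ ≤ x^(2/3 - ε/2 + ε/12 + ε/8) ≤ 8M` and `M^(1/2) ≥ x^(1/3)/3`.  `wg M n ≥ e^(-1)` on `[M, 2M]` (`wg_lower`, `k = 1`). -/
def BLK_stmt : Prop := ∀ ε : ℝ, 0 < ε → ε ≤ 1 / 2 → ∃ (δ C : ℝ) (x₀ : ℕ), 0 < δ ∧ 0 < C ∧ ∀ x : ℕ, x₀ ≤ x →
  ∀ (E : Set ℝ) (u : ℝ), MeasurableSet E → E ⊆ Set.Icc u (u + (x : ℝ) ^ (4 / 3 - ε)) →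
  volume E ≤ ENNReal.ofReal ((x : ℝ) ^ δ) → ∀ M : ℕ, (x : ℝ) ^ (2 / 3 : ℝ) ≤ 8 * M → (M : ℝ) ≤ (x : ℝ) ^ 3 →
  ∀ a : ℕ → ℂ, ∫ t in E, ‖Bk M a t‖ ^ 2 ≤ C * M * Real.log x * ∑ m ∈ Ico M (2 * M), ‖a m‖ ^ 2

/-- **SEP** (short, medium).  From INV with `σ = 0`: `g(log(mk/X)) (mk)^(-it) = (1/2π) ∫ Mt g (iv) X^(iv) (mk)^(-i(t+v)) dv`, `nu_mul`. -/
def SEP_stmt : Prop := ∀ g : ℝ → ℝ, Sm g → ∀ (X : ℝ) (M K : ℕ) (a b : ℕ → ℂ) (t : ℝ), 0 < X → 1 ≤ M → 1 ≤ K →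
  ‖B2 g X M K a b t‖ ≤ ∫ v : ℝ, ‖Mt g ((v : ℂ) * Complex.I)‖ * (‖Bk M a (t + v)‖ * ‖Bk K b (t + v)‖)

/-- **TTW** (medium; type II sums).  From SEP, BLK, DEC.  Fubini; for every `v`, Cauchy-Schwarz and BLK for the translated set `E + v`:
`∫_E ‖Bk M a (t+v)‖ ‖Bk K b (t+v)‖ dt ≤ C (M log x · M (log x)^c)^(1/2) (K log x · K (log x)^c)^(1/2)`; `∫ ‖Mt g (iv)‖ dv < ∞`. -/
def TTW_stmt : Prop := ∀ g : ℝ → ℝ, Sm g → ∀ (ε : ℝ) (c : ℕ), 0 < ε → ε ≤ 1 / 2 → ∃ (δ C : ℝ) (x₀ : ℕ), 0 < δ ∧ 0 < C ∧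
  ∀ x : ℕ, x₀ ≤ x → ∀ E : Set ℝ, MeasurableSet E → E ⊆ Set.Icc 0 ((x : ℝ) ^ (4 / 3 - ε)) →
  volume E ≤ ENNReal.ofReal ((x : ℝ) ^ δ) → ∀ (M K : ℕ) (a b : ℕ → ℂ), (x : ℝ) ^ (2 / 3 : ℝ) ≤ 8 * M →
  (x : ℝ) ^ (2 / 3 : ℝ) ≤ 8 * K → M * K ≤ 64 * x ^ 2 →
  ∑ m ∈ Ico M (2 * M), ‖a m‖ ^ 2 ≤ M * Real.log x ^ c → ∑ k ∈ Ico K (2 * K), ‖b k‖ ^ 2 ≤ K * Real.log x ^ c →
  ∫ t in E, ‖B2 g ((x : ℝ) ^ 2) M K a b t‖ ≤ C * (x : ℝ) ^ 2 * Real.log x ^ (c + 1)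

/-- **TON** (medium; type I sums).  From SEP, DEC, `CH.EM_stmt` (helper45/CH/EM.lean).  `δ = ε/2`.  `‖Bk D a‖ ≤ D (log x)^c`.  `|v| ≤ t/2`:
`‖Bk K ((log k)^h) (t+v)‖ ≤ C log x (K/t + 1 + t log x)` (EM with `θ = 0`, Abel summation).  `|v| > t/2`: `‖Bk K‖ ≤ C K log x` and
`∫_{|v| > t/2} ‖Mt g (iv)‖ dv ≤ C/t`.  So `‖B2‖ ≤ C D (log x)^(c+2) (K/t + t)` for `t ≥ 1`, and over `E`:
`∫_1^(x²) dt/t ≤ 2 log x`, `D T x^δ ≤ x^(2/3 + 4/3 - ε + ε/2)`. -/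
def TON_stmt : Prop := ∀ g : ℝ → ℝ, Sm g → ∀ (ε : ℝ) (c : ℕ), 0 < ε → ε ≤ 1 / 2 → ∃ (δ C : ℝ) (x₀ : ℕ), 0 < δ ∧ 0 < C ∧
  ∀ x : ℕ, x₀ ≤ x → ∀ E : Set ℝ, MeasurableSet E → E ⊆ Set.Icc 1 ((x : ℝ) ^ (4 / 3 - ε)) →
  volume E ≤ ENNReal.ofReal ((x : ℝ) ^ δ) → ∀ (D K h : ℕ) (a : ℕ → ℂ), 1 ≤ D → 1 ≤ K → (D : ℝ) ≤ (x : ℝ) ^ (2 / 3 : ℝ) →
  D * K ≤ 64 * x ^ 2 → h ≤ 1 → (∀ d ∈ Ico D (2 * D), ‖a d‖ ≤ Real.log x ^ c) →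
  ∫ t in E, ‖B2 g ((x : ℝ) ^ 2) D K a (fun k => (Real.log k : ℂ) ^ h) t‖ ≤ C * (x : ℝ) ^ 2 * Real.log x ^ (c + 3)

/-- **COF** (medium, short).  `|eU U d| ≤ ∑_{b ∣ d} Λ(b) = log d`; `d = ab`, `a, b ≤ U`; `beta U k = ∑_{d ∣ k, d > U} μ(d)`
(`SUP_beta` in helper43/CH/SUP.lean; `-∑_{d ∣ k, d ≤ U} μ(d)` for `k ≥ 2`), `|beta| ≤ τ(k)`, `∑ τ² ≤ C K (1+log K)³` (`sum_tau_sq_le` in
helper85/BVP/Tau); `∑ Λ² ≤ log(2M) ψ(2M)`. -/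
def COF_stmt : Prop := ∃ C : ℝ, 0 < C ∧ ∀ U : ℕ, 1 ≤ U →
  (∀ d : ℕ, 1 ≤ d → |eU U d| ≤ Real.log d) ∧ (∀ d : ℕ, U ^ 2 < d → eU U d = 0) ∧
  (∀ k : ℕ, 1 ≤ k → k ≤ U → beta U k = 0) ∧
  (∀ M : ℕ, 1 ≤ M → ∑ m ∈ Ico M (2 * M), vonMangoldt m ^ 2 ≤ C * M * (1 + Real.log M)) ∧
  ∀ K : ℕ, 1 ≤ K → ∑ k ∈ Ico K (2 * K), beta U k ^ 2 ≤ C * K * (1 + Real.log K) ^ 3

/-- **VAW** (medium).  `Pool.Agent.helper85.BVP.vaughan U U`, `U = Ux x < x²`; compare helper18/CH/VAU.lean (`VAU_conv`, `VAU_blocks`).  The terms with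
`n ≤ U` vanish (`g(log(n/x²)) ≠ 0` implies `e x² ≤ n ≤ e⁴ x²`).  A pair `(m, k)` with `e x² ≤ mk ≤ e⁴ x²` is in the block
`i = Nat.log 2 m`, `l = Nat.log 2 k`: `2^(i+l) ≤ mk < 4 · 2^(i+l)`, so `x² ≤ 2 · 2^(i+l)` and `2^(i+l) ≤ 64x²`; the blocks are disjoint.  Third
part: `i + l ≤ log(64x²)/log 2`. -/
def VAW_stmt : Prop := ∀ g : ℝ → ℝ, Sm g → (∀ u, g u ≠ 0 → 1 ≤ u ∧ u ≤ 4) → ∃ x₀ : ℕ, ∀ x : ℕ, x₀ ≤ x →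
  (#(PQ x) : ℝ) ≤ 16 * Real.log x ^ 2 ∧ ∀ t : ℝ,
  ‖DL g ((x : ℝ) ^ 2) t‖ ≤ ∑ w ∈ PQ x,
    (‖B2 g ((x : ℝ) ^ 2) (2 ^ w.1) (2 ^ w.2) (cmu (Ux x)) (fun k => (Real.log k : ℂ) ^ 1) t‖ +
     ‖B2 g ((x : ℝ) ^ 2) (2 ^ w.1) (2 ^ w.2) (ceU (Ux x)) (fun k => (Real.log k : ℂ) ^ 0) t‖ +
     ‖B2 g ((x : ℝ) ^ 2) (2 ^ w.1) (2 ^ w.2) (cLa (Ux x)) (cbe (Ux x)) t‖)

/-- **NEAR** (medium; result of part N).  From VAW, TON, TTW, COF; `U = Ux x`, `c = 4`.  First sums: zero unless `2^i ≤ U`; TON (`|μ| ≤ 1`).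
Second sums: `2^i ≤ U`: TON (`|eU| ≤ log(2^(i+1)) ≤ (log x)²`); `2^i > U`: zero unless `2^i ≤ U² ≤ x^(4/3)`, then `2^l ≥ x²/(2·2^i) ≥
x^(2/3)/2`, TTW.  Third sums: zero unless `2·2^i > U` and `2·2^l > U`, TTW (`∑ Λ² ≤ M (log x)^4`, `∑ beta² ≤ K (log x)^4` for large `x`).
`‖B2‖` is continuous in `t`, hence integrable on `E`. -/
def NEAR_stmt : Prop := ∀ g : ℝ → ℝ, Sm g → (∀ u, g u ≠ 0 → 1 ≤ u ∧ u ≤ 4) → ∃ c : ℕ, ∀ ε : ℝ, 0 < ε → ε ≤ 1 / 2 →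
  ∃ (δ C : ℝ) (x₀ : ℕ), 0 < δ ∧ 0 < C ∧ ∀ x : ℕ, x₀ ≤ x → ∀ E : Set ℝ, MeasurableSet E →
  E ⊆ Set.Icc 1 ((x : ℝ) ^ (4 / 3 - ε)) → volume E ≤ ENNReal.ofReal ((x : ℝ) ^ δ) →
  ∫ t in E, ‖DL g ((x : ℝ) ^ 2) t‖ ≤ C * (x : ℝ) ^ 2 * Real.log x ^ c

/-! ## Part P: the prime number theorem and the Vinogradov-Korobov type bound, smooth weights -/

/-- **VPP** (medium).  From `CH.VP_stmt` (`A + 2`, `B = 0`, `K = 3`, `q = 1`, `χ = 1`, `-t`; proved in helper67/CH/VP.lean, assembled in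
helper17/CH/All.lean).  `supp φ ⊆ [-R, R]`; `DL φ x t = -∫ A(u) (φ(log(u/x)))' du`, `A(u) = ∑_{n ≤ u} Λ(n) n^(-it)`, over
`x e^(-R) ≤ u ≤ x e^R`; `|A(u)| ≤ u/(log u)^(A+2)` if `(log u)^B' ≤ |t| ≤ u^3`; take `B₁ = B' + 1`. -/
def VPP_stmt : Prop := ∀ φ : ℝ → ℝ, Sm φ → ∀ A : ℕ, ∃ B₁ x₀ : ℕ, ∀ x : ℕ, x₀ ≤ x → ∀ t : ℝ,
  Real.log x ^ B₁ ≤ |t| → |t| ≤ (x : ℝ) ^ 2 → ‖DL φ x t‖ ≤ x / Real.log x ^ A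

/-- **PNF** (medium).  From `psi_pnt` (helper74/TG/SW.lean).  `h(y) = g(log(y/X)) y^(-it)`: `DL g X t - F0 g x t = -∫ (ψ(y) - y) h'(y) dy`
(`∫ h = X^(1-it) Mt g (1-it)` by `y = X e^u`), `|h'(y)| ≤ C (1+|t|)/y` on `[X e^(-R), X e^R]`, `|ψ(y) - y| ≤ C y/(log y)^(A+B+2)`. -/
def PNF_stmt : Prop := ∀ g : ℝ → ℝ, Sm g → ∀ A B : ℕ, ∃ x₀ : ℕ, ∀ x : ℕ, x₀ ≤ x → ∀ t : ℝ,
  |t| ≤ Real.log x ^ B → ‖DL g ((x : ℝ) ^ 2) t - F0 g x t‖ ≤ (x : ℝ) ^ 2 / Real.log x ^ A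

/-- **PNM** (short, medium).  The same for `h(y) = φ(log(y/x)) y²`: `∫ h = x³ ∫ φ(u) e^(3u) du`, `|h'(y)| ≤ C y`. -/
def PNM_stmt : Prop := ∀ φ : ℝ → ℝ, Sm φ → ∀ κ : ℝ, 0 < κ → ∃ x₀ : ℕ, ∀ x : ℕ, x₀ ≤ x →
  |∑' m : ℕ, vonMangoldt m * φ (Real.log ((m : ℝ) / x)) * (m : ℝ) ^ 2 - (x : ℝ) ^ 3 * ∫ u : ℝ, φ u * Real.exp (3 * u)| ≤
    κ * (x : ℝ) ^ 3

/-! ## Part F: the Fourier integral -/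

/-- **FOU** (medium).  From INV (`σ = 0`, for `w`), TRV.  `w(y/η) = (η/2π) ∫ Mt w (iηt) e^(-ity) dt` with `y = log n - log(8m²)`, resp.
`y = log y' - log(8m²)`; `∫_0^∞ g(log(y/X)) y^(-it) dy = X^(1-it) Mt g (1-it) = F0 g x t`.  So
`Spn - S0 = (η/2π) ∫ Mt w (iηt) 8^(it) (DL g X t - F0 g x t) (∑_m Λ(m) φ(log(m/x)) m^(2it)) dt`, and the last factor is
`DL φ x (-2t)`, `‖DL φ x (-2t)‖ = ‖DL φ x (2t)‖`.  All sums over `m`, `n` are finite (`DL_eq`). -/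
def FOU_stmt : Prop := ∀ φ g w : ℝ → ℝ, Sm φ → Sm g → Sm w → ∀ (x : ℕ) (η : ℝ), 1 ≤ x → 0 < η →
  |Spn φ g w x η - S0 φ g w x η| ≤ η * ∫ t : ℝ, ‖Mt w (((η * t : ℝ) : ℂ) * Complex.I)‖ *
    (‖DL g ((x : ℝ) ^ 2) t - F0 g x t‖ * ‖DL φ x (2 * t)‖)

/-- **INT** (medium, long).  From FOU, DEC, TRV, PNF, VPP, NEAR, FAR.  We may assume `ε ≤ 1/2`.  `L = log x`, `T = x^(ε/2)/η ≤ x^(4/3 - ε/2)`.  NEAR with `ε/2`: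
`c` (depends only on `g`), `δ`, `C`; VPP with `A = c + 1`: `B₁ ≥ 1`; FAR with `ε/2`, `δ`; PNF with `A = B₁ + 1`, `B = B₁`.  The integrand is even in
its size (TRV; `‖Mt w (-z)‖`, `‖F0 g x (-t)‖` by conjugation).  `|t| ≤ L^B₁`: `≤ C L^B₁ x²/L^(B₁+1) · x`.  `t > T`: `‖Mt w (iηt)‖ ≤ C_k (ηt)^(-k)`,
`kε ≥ 8`: `≤ C x³ T (ηT)^(1-k)`-type `≤ 1`.  `L^B₁ < t ≤ T`: `‖F0‖ ≤ C x²/t²` (DEC, `k = 2`), contribution `C x³/L^B₁`; `‖DL g‖ ‖DL φ‖` outside of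
`E`: `x^(3-κ)`; on `E' = E ∩ [L^B₁, T]`: VPP at `2t` and NEAR: `≤ x/L^(c+1) · C x² L^c`.  Total `≤ C x³/L + ...`. -/
def INT_stmt : Prop := ∀ φ g w : ℝ → ℝ, Sm φ → Sm g → Sm w → (∀ u, g u ≠ 0 → 1 ≤ u ∧ u ≤ 4) → ∀ ε κ : ℝ,
  0 < ε → 0 < κ → ∃ x₀ : ℕ, ∀ x : ℕ, x₀ ≤ x → ∀ η : ℝ, (x : ℝ) ^ (-(4 / 3 : ℝ) + ε) ≤ η → η ≤ 1 →
  |Spn φ g w x η - S0 φ g w x η| ≤ κ * η * (x : ℝ) ^ 3

/-! ## Part M: the main term and the asymptotic formula -/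

/-- **SZA** (medium).  From PNM.  For `m` with `φ(log(m/x)) ≠ 0` and `w(v) ≠ 0`: `log(8m² e^(ηv)/x²) = log 8 + 2 log(m/x) + ηv` is in
`[1.1, 3.95]` (`2.07 ≤ log 8 ≤ 2.08`), so `g = 1` there, and with `y = 8m² e^(ηv)` the inner integral of `S0` is `8m² η ∫ w(v) e^(ηv) dv`.
`|∫ w(v) e^(ηv) dv| ≤ C` for `0 < η ≤ 1/4`. -/
def SZA_stmt : Prop := ∀ φ g w : ℝ → ℝ, Sm φ → Sm g → Sm w → (∀ u, φ u ≠ 0 → -(1 / 10) ≤ u ∧ u ≤ 4 / 5) →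
  (∀ u, w u ≠ 0 → -2 ≤ u ∧ u ≤ 1) → (∀ u, 11 / 10 ≤ u → u ≤ 79 / 20 → g u = 1) → ∀ κ : ℝ, 0 < κ →
  ∃ x₀ : ℕ, ∀ x : ℕ, x₀ ≤ x → ∀ η : ℝ, 0 < η → η ≤ 1 / 4 →
  |S0 φ g w x η - 8 * (x : ℝ) ^ 3 * (η * ∫ v : ℝ, w v * Real.exp (η * v)) * ∫ u : ℝ, φ u * Real.exp (3 * u)| ≤
    κ * η * (x : ℝ) ^ 3

/-- **LOW** (medium, long).  From BMP, INT, SZA.  `J` large, `κ₁` small in terms of `J`, then `κ₂`.  `g` = BMP for `(1, 4, 1/20)`, `w` = BMP for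
`(-1, 0, κ₁)`, `φ_j` = BMP for `(log(1+j/J), log(1+(j+1)/J), κ₁)`, `j < J`.  `z_j = B/(8x²(1+(j+1)/J)²) ≤ 1/8`, `η_j = -log(1-z_j)`,
`z_j ≤ η_j ≤ 2z_j`, `η_j ≥ B/(32x²) ≥ x^(-4/3+ε/2)`.  If `φ_j ≠ 0`, `w ≠ 0` then `x(1+j/J) < m < x(1+(j+1)/J)` and
`8m² - B ≤ 8m²(1-z_j) < n < 8m²`, so `∑_j Spn(φ_j, g, w, x, η_j) ≤ WT x B`.  By INT, SZA (`κ₂`) each term is
`≥ 8x³ (η_j ∫ w e^(η_j v)) (∫ φ_j e^(3u)) - 2κ₂ η_j x³`; `η ∫ w e^(ηv) ≥ (1 - e^(-η)) - 2κ₁η = z_j - 2κ₁η_j ≥ z_j(1-4κ₁)`;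
`∫ φ_j e^(3u) ≥ ((1+(j+1)/J)³ - (1+j/J)³)/3 - 16κ₁ ≥ (1+j/J)²/J - 16κ₁`; `8x³z_j = Bx/(1+(j+1)/J)²`.  Sum
`≥ Bx[(1-4κ₁)((1-2/J) - 16κ₁J) - κ₂J]`. -/
def LOW_stmt : Prop := ∀ ε κ : ℝ, 0 < ε → 0 < κ → ∃ x₀ : ℕ, ∀ x : ℕ, x₀ ≤ x → ∀ B : ℕ,
  (x : ℝ) ^ (2 / 3 + ε) ≤ B → B ≤ x ^ 2 → (1 - κ) * (B * x) ≤ WT x B

/-- **UPP** (medium, long).  From BMP, INT, SZA, as LOW: `w` = BMP for `(-1-κ₁, κ₁, κ₁)`, `φ_j` = BMP for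
`(log(1+j/J) - κ₁, log(1+(j+1)/J) + κ₁, κ₁)`, `z_j = B/(8x²(1+j/J)²)`, `η_j = -log(1-z_j)`.  For `x(1+j/J) ≤ m ≤ x(1+(j+1)/J)`, `8m² - B ≤ n < 8m²`
all weights are `1` (`7x² ≤ n ≤ 32x²`), so `WT x B ≤ ∑_j Spn`.  `η ∫ w e^(ηv) ≤ z_j + 4κ₁η_j ≤ z_j(1+8κ₁)`,
`∫ φ_j e^(3u) ≤ (1+(j+1)/J)²/J + 40κ₁`, `8x³z_j = Bx/(1+j/J)²`, `((J+j+1)/(J+j))² ≤ 1 + 3/J`. -/
def UPP_stmt : Prop := ∀ ε κ : ℝ, 0 < ε → 0 < κ → ∃ x₀ : ℕ, ∀ x : ℕ, x₀ ≤ x → ∀ B : ℕ,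
  (x : ℝ) ^ (2 / 3 + ε) ≤ B → B ≤ x ^ 2 → WT x B ≤ (1 + κ) * (B * x)

/-- **PPW** (medium).  The pairs `(p, b)` correspond to the pairs `(p, q)`, `q = 8p² - b` prime in `[8p² - B, 8p²)`; there
`log x ≤ log p ≤ log x + 0.7`, `2 log x + 1 ≤ log q ≤ 2 log x + 3.5` (`7x² ≤ q ≤ 32x²`).  The pairs with `m` a prime power, not a prime:
`≤ 10 √x log x` values `m`, weight `≤ B (log(32x²))²` each.  The pairs with `n = q^j`, `j ≥ 2`: `≤ 6x · 10 log x` values `n`, and for each `n` the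
`m > x` with `n < 8m² ≤ n + B` are at most `B/(16x) + 1` (`8m'² - 8m² ≥ 16x(m'-m)`).  Total `≤ C (B √x + B + x)(log x)^4 ≤ B x^(9/10)`. -/
def PPW_stmt : Prop := ∃ x₀ : ℕ, ∀ x : ℕ, x₀ ≤ x → ∀ B : ℕ, (x : ℝ) ^ (2 / 3 : ℝ) ≤ B → B ≤ x ^ 2 →
  2 * Real.log x ^ 2 * Tot x B ≤ WT x B ∧
  WT x B ≤ 2 * Real.log x ^ 2 * (1 + 10 / Real.log x) * Tot x B + B * (x : ℝ) ^ (9 / 10 : ℝ)

/-- **ASY** (short).  From LOW, UPP, PPW.  The asymptotic formula. -/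
def ASY_stmt : Prop := ∀ ε κ : ℝ, 0 < ε → 0 < κ → ∃ x₀ : ℕ, ∀ x : ℕ, x₀ ≤ x → ∀ B : ℕ,
  (x : ℝ) ^ (2 / 3 + ε) ≤ B → B ≤ x ^ 2 →
  |(Tot x B : ℝ) - B * x / (2 * Real.log x ^ 2)| ≤ κ * (B * x / Real.log x ^ 2)

/-! ## Part S: the second moment -/

/-- **TWS** (medium).  `a` odd: `n` or `n - a` is even, at most 3 values.  `a` even: `interval_sieve 2` (Pool/Agent/Lib/SieveInterval.lean) with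
`C l = {0, a mod l}` (one class if `l ∣ a`): `#sifted ≤ 2H ∏_{l ≤ Z} (1 - #C l/l) + Z^B₀`, `Z = Z r` with `Z^(2B₀) ≤ H < Z^(4B₀)`
(`Z (r+1) = Z r ²`).  `1 - 2/l ≤ (1-1/l)²`, so the product is `≤ ∏_{l ≤ Z} (1-1/l)² ∏_{l ∣ a} (1-1/l)⁻¹ ≤ C (log Z)⁻² ff a` since
`(1-1/l)⁻¹ = (1+1/l)(1-1/l²)⁻¹` and `∏_{l ≤ Z} (1-1/l)⁻¹ ≥ ∑_{n ≤ Z} 1/n`.  The `n` that are not sifted but counted: `n ≤ Z` or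
`|n - a| ≤ Z`, at most `3Z + 1`.  Small `H`: trivial. -/
def TWS_stmt : Prop := ∃ C : ℝ, 0 < C ∧ ∀ (y H : ℕ) (a : ℤ), 2 ≤ H → a ≠ 0 →
  (#((Ioc y (y + H)).filter fun n : ℕ => n.Prime ∧ ((n : ℤ) - a).natAbs.Prime) : ℝ) ≤
    C * H / Real.log H ^ 2 * ff a.natAbs

/-- **BTI** (short, medium).  `interval_sieve 1` in the same way, or `rough_short` (helper23/Slope/RA.lean). -/
def BTI_stmt : Prop := ∃ C : ℝ, 0 < C ∧ ∀ y H : ℕ, 2 ≤ H →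
  (#((Ioc y (y + H)).filter Nat.Prime) : ℝ) ≤ C * H / Real.log H

/-- **FFA** (medium, short).  `ff` is submultiplicative (`primeFactors (mn) = union`).  `(1+1/l)³ ≤ 1 + 7/l`, `ff h ^ 3 ≤ ∑_{d ∣ h, d squarefree}
∏_{l ∣ d} 7/l`, sum over `h ≤ H`: `≤ H ∑_d ∏_{l ∣ d} 7/l² ≤ H ∏_{l ≤ H} (1 + 7/l²) ≤ C H`. -/
def FFA_stmt : Prop := (∀ n : ℕ, 1 ≤ ff n) ∧ (∀ m n : ℕ, m ≠ 0 → n ≠ 0 → ff (m * n) ≤ ff m * ff n) ∧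
  ∃ C : ℝ, 0 < C ∧ ∀ H : ℕ, ∑ h ∈ Icc 1 H, ff h ^ 3 ≤ C * H

/-- **PAV** (medium).  From TWS, FFA.  `8|p²-p'²| = 8 · |p-p'| · (p+p')`, `ff(8ab) ≤ ff 8 · ff a · ff b ≤ (3/4)(ff a ² + ff b ²)`.
`∑_{p ≠ p'} ff(|p-p'|)² = 2 ∑_{h ≤ x} ff(h)² #{p : p, p+h prime in (x,2x]} ≤ 2 ∑_h ff(h)³ C x/log² x` (TWS, `y = H = x`, `a = -h`);
`∑ ff(p+p')² ≤ ∑_{k ≤ 4x} ff(k)² #{p ∈ (x,2x] : p, k - p prime} ≤ ∑_k ff(k)³ C x/log² x` (`a = k`). -/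
def PAV_stmt : Prop := ∃ (C : ℝ) (x₀ : ℕ), 0 < C ∧ ∀ x : ℕ, x₀ ≤ x →
  ∑ p ∈ (Ioc x (2 * x)).filter Nat.Prime, ∑ q ∈ (Ioc x (2 * x)).filter (fun q : ℕ => q.Prime ∧ q ≠ p),
    ff (8 * ((p : ℤ) ^ 2 - (q : ℤ) ^ 2)).natAbs ≤ C * (x : ℝ) ^ 2 / Real.log x ^ 2

/-- **SEC** (medium).  From TWS, BTI, PAV.  `∑_b (cnt x b)² = ∑_{p,p'} #{b ≤ B : 8p² - b and 8p'² - b prime}`.  `p ≠ p'`: `n = 8p² - b` is in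
`(8p² - B - 1, 8p² - 1]`, `8p'² - b = n - a`, `a = 8p² - 8p'²`: TWS with `H = B`, `log B ≥ (log x)/2`; PAV.  `p = p'`: BTI twice,
`≤ C (x/log x)(B/log x) ≤ C B x²/log⁴ x`. -/
def SEC_stmt : Prop := ∃ (C : ℝ) (x₀ : ℕ), 0 < C ∧ ∀ x : ℕ, x₀ ≤ x → ∀ B : ℕ, (x : ℝ) ^ (1 / 2 : ℝ) ≤ B → B ≤ x ^ 2 →
  ∑ b ∈ Icc 1 B, (cnt x b : ℝ) ^ 2 ≤ C * B * (x : ℝ) ^ 2 / Real.log x ^ 4

/-- **FIN1** (short, medium).  From ASY (`κ = 1/4`), SEC.  `∑_b cnt ≥ Bx/(4 log² x)`; the `b` with `cnt < c x/log² x` contribute at most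
`c B x/log² x`; Cauchy-Schwarz for the others. -/
def FIN1_stmt : Prop := ∀ ε : ℝ, 0 < ε → ∃ (c : ℝ) (x₀ : ℕ), 0 < c ∧ ∀ x : ℕ, x₀ ≤ x → ∀ B : ℕ,
  (x : ℝ) ^ (2 / 3 + ε) ≤ B → B ≤ x ^ 2 →
  c * B ≤ #((Icc 1 B).filter fun b => c * x / Real.log x ^ 2 ≤ cnt x b)

/-- **FIN2** (short, medium).  From ASY (`κ = 1/4`), BTI.  `Tot x B = ∑_p cnb B p`, `cnb B p ≤ C B/log x` (BTI), the number of primes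
`p ≤ 2x` is `≤ C x/log x` (BTI). -/
def FIN2_stmt : Prop := ∀ ε : ℝ, 0 < ε → ∃ (c : ℝ) (x₀ : ℕ), 0 < c ∧ ∀ x : ℕ, x₀ ≤ x → ∀ B : ℕ,
  (x : ℝ) ^ (2 / 3 + ε) ≤ B → B ≤ x ^ 2 →
  c * x / Real.log x ≤ #((Ioc x (2 * x)).filter fun p => p.Prime ∧ c * B / Real.log x ≤ cnb B p)

end Pool.Agent.SCT
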